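import Pool.Agent.Run7.h261.CG.Base

/-!
# Cocycles with values in functions on an adelic group
-/

set_option autoImplicit false

namespace Pool.Agent.Run7.h261.CG

variable {G Γ W : Type*} [Group G] [Group Γ] [AddCommGroup W]

/-- `f (x u) = f x` for `u ∈ V`. -/
def Inv (V : Subgroup G) (f : G → W) : Prop := ∀ u ∈ V, ∀ x, f (x * u) = f x

/-- The operator `T² - n² S`. -/
def eis {I : Type*} [Fintype I] (r : I → G) (z : G) (f : G → W) (x : G) : W :=
  ∑ i, ∑ j, f (x * r i * r j) - (Fintype.card I ^ 2) • f (x * z)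

/-- Cocycles of `Γ` with values in the functions on `G`. -/
def IsCoc (ι : Γ →* G) (c : Γ → G → W) : Prop :=
  ∀ γ δ x, c (γ * δ) x = c γ x + c δ ((ι γ)⁻¹ * x)

/-- The coboundary of `b`. -/
def bd (ι : Γ →* G) (b : G → W) (γ : Γ) (x : G) : W := b ((ι γ)⁻¹ * x) - b x

section

variable {I : Type*} [Fintype I] {r : I → G} {z : G} {ι : Γ →* G} {c : Γ → G → W}

theorem eis_left (g : G) (f : G → W) (x : G) :
    eis r z f (g * x) = eis r z (fun y => f (g * y)) x := by
  simp only [eis, mul_assoc]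

theorem eis_add (f g : G → W) (x : G) :
    eis r z (fun y => f y + g y) x = eis r z f x + eis r z g x := by
  simp only [eis, Finset.sum_add_distrib, smul_add]
  abel

theorem eis_sub (f g : G → W) (x : G) :
    eis r z (fun y => f y - g y) x = eis r z f x - eis r z g x := by
  simp only [eis, Finset.sum_sub_distrib, smul_sub]
  abel

theorem IsCoc.one (hc : IsCoc ι c) (x : G) : c 1 x = 0 := by
  have h := hc 1 1 x
  simpa using h

theorem IsCoc.eisc (hc : IsCoc ι c) : IsCoc ι fun γ => eis r z (c γ) := by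
  intro γ δ x
  show eis r z (c (γ * δ)) x = eis r z (c γ) x + eis r z (c δ) ((ι γ)⁻¹ * x)
  rw [eis_left, ← eis_add]
  congr 1
  funext y
  exact hc γ δ y

theorem IsCoc.conj (hc : IsCoc ι c) {V : Subgroup G} (hV : ∀ γ, Inv V (c γ)) {γ δ : Γ} {y : G}
    (h : y⁻¹ * ι γ * y ∈ V) : c (δ * γ * δ⁻¹) (ι δ * y) = c γ y := by
  have h1 : c δ⁻¹ ((ι γ)⁻¹ * y) = c δ⁻¹ y := by
    have e : (ι γ)⁻¹ * y = y * (y⁻¹ * ι γ * y)⁻¹ := by group
    rw [e]
    exact hV _ _ (V.inv_mem h) _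
  have h2 := hc δ δ⁻¹ (ι δ * y)
  rw [mul_inv_cancel, hc.one, inv_mul_cancel_left] at h2
  rw [mul_assoc, hc, inv_mul_cancel_left, hc, h1]
  have : c δ (ι δ * y) = - c δ⁻¹ y := by
    rw [eq_neg_iff_add_eq_zero]; exact h2.symm
  rw [this]; abel

theorem isCoc_bd (b : G → W) : IsCoc ι (bd ι b) := by
  intro γ δ x
  simp only [bd, map_mul, mul_inv_rev, mul_assoc]
  abel

theorem eis_bd (b : G → W) (γ : Γ) (x : G) : eis r z (bd ι b γ) x = bd ι (eis r z b) γ x := by
  show eis r z (fun y => b ((ι γ)⁻¹ * y) - b y) x = _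
  rw [eis_sub, bd, eis_left]

end

/-! ### strong approximation -/

section

variable [TopologicalSpace G] [IsTopologicalGroup G] (ι : Γ →* G) (S : Subgroup G)

/-- Strong approximation. -/
def StrongApprox : Prop := ∀ V : Subgroup G, IsOpen (V : Set G) → ∀ s ∈ S, ∃ δ : Γ, ι δ ∈ S ∧
  ∃ u ∈ V, s = ι δ * u

/-- There are finitely many double cosets. -/
def FiniteCosets : Prop := ∀ V : Subgroup G, IsOpen (V : Set G) → ∃ X : Set G, X.Finite ∧
  ∀ x, ∃ γ : Γ, ∃ y ∈ X, ∃ u ∈ V, x = ι γ * y * u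

/-- Homomorphisms of congruence subgroups are invariant under conjugation on a congruence
subgroup. -/
def CongrProp (W : Type*) [AddCommGroup W] : Prop :=
  ∀ V : Subgroup G, IsOpen (V : Set G) → ∀ φ : Γ → W,
    (∀ γ γ', ι γ ∈ S → ι γ ∈ V → ι γ' ∈ S → ι γ' ∈ V → φ (γ * γ') = φ γ + φ γ') →
    ∀ δ, ι δ ∈ S → ∃ V' : Subgroup G, IsOpen (V' : Set G) ∧
      ∀ γ, ι γ ∈ S → ι γ ∈ V' → φ (δ * γ * δ⁻¹) = φ γ

variable {ι S}

/-- The subgroup `x V x⁻¹`. -/
def cj (x : G) (V : Subgroup G) : Subgroup G := V.comap (MulAut.conj x⁻¹).toMonoidHom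

omit [TopologicalSpace G] [IsTopologicalGroup G] in
theorem mem_cj {x : G} {V : Subgroup G} {g : G} : g ∈ cj x V ↔ x⁻¹ * g * x ∈ V := by
  simp [cj, MulAut.conj_apply]

theorem isOpen_cj {x : G} {V : Subgroup G} (hV : IsOpen (V : Set G)) :
    IsOpen (cj x V : Set G) := by
  have : (cj x V : Set G) = (fun g => x⁻¹ * g * x) ⁻¹' (V : Set G) := by
    ext g; exact mem_cj
  rw [this]
  exact hV.preimage (by fun_prop)

theorem left_inv (hSA : StrongApprox ι S) {V : Subgroup G} (hV : IsOpen (V : Set G)) {f : G → W}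
    (hf : Inv V f) (hl : ∀ δ, ι δ ∈ S → ∀ x, f (ι δ * x) = f x) {s : G} (hs : s ∈ S) (x : G) :
    f (s * x) = f x := by
  obtain ⟨δ, hδ, u, hu, rfl⟩ := hSA (cj x V) (isOpen_cj hV) s hs
  rw [mem_cj] at hu
  have e : ι δ * u * x = ι δ * x * (x⁻¹ * u * x) := by group
  rw [e, hf _ hu, hl δ hδ]

omit [TopologicalSpace G] [IsTopologicalGroup G] in
theorem eis_zero {I : Type*} [Fintype I] {r : I → G} {z : G} [S.Normal]
    (hrz : ∀ i j, r i * r j * z⁻¹ ∈ S) {f : G → W} (hl : ∀ s ∈ S, ∀ x, f (s * x) = f x) (x : G) :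
    eis r z f x = 0 := by
  have h : ∀ i j, f (x * r i * r j) = f (x * z) := by
    intro i j
    have e : x * r i * r j = x * (r i * r j * z⁻¹) * x⁻¹ * (x * z) := by group
    rw [e]
    exact hl _ (Subgroup.Normal.conj_mem inferInstance _ (hrz i j) x) _
  simp only [eis, h, Finset.sum_const, Finset.card_univ, smul_smul]
  rw [sq, sub_self]

end

end Pool.Agent.Run7.h261.CG
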