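import Mathlib

/-!
# The group `GL_2` over the finite adeles of a number field: definitions
-/

set_option autoImplicit false

namespace Pool.Agent.Run7.h261.CG

open NumberField IsDedekindDomain Filter
open scoped RestrictedProduct MatrixGroups

section

variable {F : Type} [Field F] [NumberField F]

/-- The group `GL_2(F_v)`. -/
def GLv (v : HeightOneSpectrum (𝓞 F)) : Type := GL (Fin 2) (v.adicCompletion F)

noncomputable instance (v : HeightOneSpectrum (𝓞 F)) : Group (GLv v) :=
  (inferInstance : Group (GL (Fin 2) (v.adicCompletion F)))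

noncomputable instance (v : HeightOneSpectrum (𝓞 F)) : TopologicalSpace (GLv v) :=
  (inferInstance : TopologicalSpace (GL (Fin 2) (v.adicCompletion F)))

instance (v : HeightOneSpectrum (𝓞 F)) : IsTopologicalGroup (GLv v) :=
  (inferInstance : IsTopologicalGroup (GL (Fin 2) (v.adicCompletion F)))

/-- An element of `GL_2(F_v)` as a matrix. -/
def GLv.mat {v : HeightOneSpectrum (𝓞 F)} (g : GLv v) :
    Matrix (Fin 2) (Fin 2) (v.adicCompletion F) :=
  Units.val (α := Matrix (Fin 2) (Fin 2) (v.adicCompletion F)) g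

/-- All entries of the matrix are in `O_v`. -/
def IntEntries {v : HeightOneSpectrum (𝓞 F)} (g : GLv v) : Prop :=
  ∀ i j, g.mat i j ∈ v.adicCompletionIntegers F

theorem intEntries_one (v : HeightOneSpectrum (𝓞 F)) : IntEntries (1 : GLv v) := by
  intro i j
  show (1 : Matrix (Fin 2) (Fin 2) (v.adicCompletion F)) i j ∈ _
  rw [Matrix.one_apply]
  split_ifs
  · exact one_mem _
  · exact zero_mem _

theorem intEntries_mul {v : HeightOneSpectrum (𝓞 F)} {g h : GLv v}
    (hg : IntEntries g) (hh : IntEntries h) : IntEntries (g * h) := by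
  intro i j
  show (g.mat * h.mat) i j ∈ _
  rw [Matrix.mul_apply]
  exact sum_mem fun l _ => mul_mem (hg _ _) (hh _ _)

/-- The matrix is in `GL_2(O_v)`. -/
def IsInt {v : HeightOneSpectrum (𝓞 F)} (g : GLv v) : Prop := IntEntries g ∧ IntEntries g⁻¹

theorem isInt_one (v : HeightOneSpectrum (𝓞 F)) : IsInt (1 : GLv v) :=
  ⟨intEntries_one v, by rw [inv_one]; exact intEntries_one v⟩

theorem isInt_mul {v : HeightOneSpectrum (𝓞 F)} {g h : GLv v} (hg : IsInt g) (hh : IsInt h) :
    IsInt (g * h) :=
  ⟨intEntries_mul hg.1 hh.1, by rw [mul_inv_rev]; exact intEntries_mul hh.2 hg.2⟩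

theorem isInt_inv {v : HeightOneSpectrum (𝓞 F)} {g : GLv v} (hg : IsInt g) : IsInt g⁻¹ :=
  ⟨hg.2, by rw [inv_inv]; exact hg.1⟩

/-- The group `GL_2(O_v)`. -/
def intGL (v : HeightOneSpectrum (𝓞 F)) : Subgroup (GLv v) where
  carrier := {g | IsInt g}
  one_mem' := isInt_one v
  mul_mem' := isInt_mul
  inv_mem' := isInt_inv

theorem isOpen_intGL (v : HeightOneSpectrum (𝓞 F)) : IsOpen (intGL v : Set (GLv v)) := by
  have hO : IsOpen (v.adicCompletionIntegers F : Set (v.adicCompletion F)) :=
    Valued.isOpen_valuationSubring _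
  have h1 : ∀ i j, Continuous fun g : GL (Fin 2) (v.adicCompletion F) => g i j := fun i j =>
    Continuous.matrix_elem Units.continuous_val i j
  have h2 : ∀ i j, Continuous fun g : GL (Fin 2) (v.adicCompletion F) => g⁻¹ i j := fun i j =>
    (h1 i j).comp continuous_inv
  have e : (intGL v : Set (GLv v)) =
      (⋂ i, ⋂ j, (fun g : GL (Fin 2) (v.adicCompletion F) => g i j) ⁻¹'
        (v.adicCompletionIntegers F : Set (v.adicCompletion F))) ∩
      ⋂ i, ⋂ j, (fun g : GL (Fin 2) (v.adicCompletion F) => g⁻¹ i j) ⁻¹'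
        (v.adicCompletionIntegers F : Set (v.adicCompletion F)) := by
    refine Set.ext fun g => ⟨fun hg => ?_, fun hg => ?_⟩
    · exact ⟨Set.mem_iInter.2 fun i => Set.mem_iInter.2 fun j => hg.1 i j,
        Set.mem_iInter.2 fun i => Set.mem_iInter.2 fun j => hg.2 i j⟩
    · exact ⟨fun i j => Set.mem_iInter.1 (Set.mem_iInter.1 hg.1 i) j,
        fun i j => Set.mem_iInter.1 (Set.mem_iInter.1 hg.2 i) j⟩
  rw [e]
  exact (isOpen_iInter_of_finite fun i => isOpen_iInter_of_finite fun j =>
    hO.preimage (h1 i j)).inter (isOpen_iInter_of_finite fun i => isOpen_iInter_of_finite fun j =>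
    hO.preimage (h2 i j))

instance : Fact (∀ v : HeightOneSpectrum (𝓞 F), IsOpen (intGL v : Set (GLv v))) := ⟨isOpen_intGL⟩

end

variable (F : Type) [Field F] [NumberField F]

/-- The group `GL_2` over the finite adeles, the restricted product of the groups `GL_2(F_v)` with
respect to the subgroups `GL_2(O_v)`. -/
def GLA : Type := Πʳ v : HeightOneSpectrum (𝓞 F), [GLv v, intGL v]

noncomputable instance : Group (GLA F) :=
  (inferInstance : Group (Πʳ v : HeightOneSpectrum (𝓞 F), [GLv v, intGL v]))

noncomputable instance : TopologicalSpace (GLA F) :=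
  (inferInstance : TopologicalSpace (Πʳ v : HeightOneSpectrum (𝓞 F), [GLv v, intGL v]))

instance : IsTopologicalGroup (GLA F) :=
  (inferInstance : IsTopologicalGroup (Πʳ v : HeightOneSpectrum (𝓞 F), [GLv v, intGL v]))

variable {F}

/-- The component of an element at the place `v`. -/
def GLA.comp (x : GLA F) (v : HeightOneSpectrum (𝓞 F)) : GLv v := x.1 v

theorem GLA.ext {x y : GLA F} (h : ∀ v, x.comp v = y.comp v) : x = y := RestrictedProduct.ext _ _ h

theorem comp_one (v : HeightOneSpectrum (𝓞 F)) : (1 : GLA F).comp v = 1 := rfl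

theorem comp_mul (x y : GLA F) (v : HeightOneSpectrum (𝓞 F)) :
    (x * y).comp v = x.comp v * y.comp v := rfl

theorem comp_inv (x : GLA F) (v : HeightOneSpectrum (𝓞 F)) : x⁻¹.comp v = (x.comp v)⁻¹ := rfl

/-- The determinant of a matrix over `F_v`. -/
noncomputable def detv {v : HeightOneSpectrum (𝓞 F)} : GLv v →* (v.adicCompletion F)ˣ :=
  Matrix.GeneralLinearGroup.det

/-- The component of `x` at `v` has determinant one. -/
def DetOne (x : GLA F) (v : HeightOneSpectrum (𝓞 F)) : Prop := detv (x.comp v) = 1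

/-- All components of `x` have determinant one. -/
def AllDetOne (x : GLA F) : Prop := ∀ v, DetOne x v

theorem allDetOne_one : AllDetOne (1 : GLA F) := fun _ => map_one _

theorem allDetOne_mul {x y : GLA F} (hx : AllDetOne x) (hy : AllDetOne y) :
    AllDetOne (x * y) := fun v => by
  show detv ((x * y).comp v) = 1
  rw [comp_mul, map_mul, show detv (x.comp v) = 1 from hx v, show detv (y.comp v) = 1 from hy v,
    one_mul]

theorem allDetOne_inv {x : GLA F} (hx : AllDetOne x) : AllDetOne x⁻¹ := fun v => by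
  show detv (x⁻¹.comp v) = 1
  rw [comp_inv, map_inv, show detv (x.comp v) = 1 from hx v, inv_one]

variable (F) in
/-- The subgroup `SL_2` over the finite adeles. -/
def SLA : Subgroup (GLA F) where
  carrier := {x | AllDetOne x}
  one_mem' := allDetOne_one
  mul_mem' := allDetOne_mul
  inv_mem' := allDetOne_inv

/-- The image of an element of `GL_2(F)` in `GL_2(F_v)`. -/
noncomputable def toGLv (v : HeightOneSpectrum (𝓞 F)) : GL (Fin 2) F →* GLv v :=
  Matrix.GeneralLinearGroup.map (algebraMap F (v.adicCompletion F))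

theorem ae_int (γ : GL (Fin 2) F) :
    ∀ᶠ v : HeightOneSpectrum (𝓞 F) in cofinite, toGLv v γ ∈ intGL v := by
  have h : ∀ x : F, ∀ᶠ v : HeightOneSpectrum (𝓞 F) in cofinite,
      algebraMap F (v.adicCompletion F) x ∈ v.adicCompletionIntegers F := by
    intro x
    have := (algebraMap F (FiniteAdeleRing (𝓞 F) F) x).2
    exact this
  have h1 : ∀ᶠ v : HeightOneSpectrum (𝓞 F) in cofinite, ∀ i j,
      algebraMap F (v.adicCompletion F) (γ i j) ∈ v.adicCompletionIntegers F := by
    rw [eventually_all]
    intro i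
    rw [eventually_all]
    exact fun j => h _
  have h2 : ∀ᶠ v : HeightOneSpectrum (𝓞 F) in cofinite, ∀ i j,
      algebraMap F (v.adicCompletion F) (γ⁻¹ i j) ∈ v.adicCompletionIntegers F := by
    rw [eventually_all]
    intro i
    rw [eventually_all]
    exact fun j => h _
  filter_upwards [h1, h2] with v hv1 hv2
  refine ⟨fun i j => hv1 i j, fun i j => ?_⟩
  rw [← map_inv]
  exact hv2 i j

/-- The element of `GL_2` over the finite adeles given by `γ ∈ GL_2(F)`. -/
noncomputable def diagFun (γ : GL (Fin 2) F) : GLA F := ⟨fun v => toGLv v γ, ae_int γ⟩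

/-- The diagonal embedding of `GL_2(F)`. -/
noncomputable def diagGL : GL (Fin 2) F →* GLA F where
  toFun γ := diagFun γ
  map_one' := GLA.ext fun v => (toGLv v).map_one
  map_mul' γ δ := GLA.ext fun v => (toGLv v).map_mul γ δ

/-- The determinant is totally positive. -/
def TotPos (γ : GL (Fin 2) F) : Prop := ∀ φ : F →+* ℝ, 0 < φ (γ.det : F)

theorem totPos_one : TotPos (1 : GL (Fin 2) F) := fun φ => by simp

theorem totPos_mul {γ δ : GL (Fin 2) F} (hγ : TotPos γ) (hδ : TotPos δ) : TotPos (γ * δ) :=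
  fun φ => by simpa using mul_pos (hγ φ) (hδ φ)

theorem totPos_inv {γ : GL (Fin 2) F} (hγ : TotPos γ) : TotPos γ⁻¹ :=
  fun φ => by simpa using inv_pos.2 (hγ φ)

variable (F)

/-- The group of the elements of `GL_2(F)` with totally positive determinant. -/
def posGL : Subgroup (GL (Fin 2) F) where
  carrier := {γ | TotPos γ}
  one_mem' := totPos_one
  mul_mem' := totPos_mul
  inv_mem' := totPos_inv

/-- The group `GL_2(F)^+`, as a type. -/
def GLpos : Type := posGL F

noncomputable instance : Group (GLpos F) := (inferInstance : Group (posGL F))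

/-- The embedding of the group `GL_2(F)^+`. -/
noncomputable def iota : GLpos F →* GLA F := diagGL.comp (posGL F).subtype

variable {F}

/-- A uniformizer `π` at `v`, an element of `F`. -/
noncomputable def pi (v : HeightOneSpectrum (𝓞 F)) : F :=
  Classical.choose (v.valuation_exists_uniformizer F)

theorem pi_ne (v : HeightOneSpectrum (𝓞 F)) : pi v ≠ 0 := v.valuation_uniformizer_ne_zero F

noncomputable instance fintypeQuot (v : HeightOneSpectrum (𝓞 F)) : Fintype (𝓞 F ⧸ v.asIdeal) :=
  @Fintype.ofFinite _ (v.asIdeal.finiteQuotientOfFreeOfNeBot v.ne_bot)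

/-- The upper triangular matrix `(a, b; 0, d)`. -/
noncomputable def tri (a b d : F) (ha : a ≠ 0) (hd : d ≠ 0) : GL (Fin 2) F :=
  Matrix.GeneralLinearGroup.mkOfDetNeZero !![a, b; 0, d] (by simpa using ⟨ha, hd⟩)

/-- The elements of `GL_2(F)` which define the Hecke operator at the place `v`: the matrices
`(π, b; 0, 1)`, where `b` are representatives of the residue field, and `(1, 0; 0, π)`. -/
noncomputable def heckeMat (v : HeightOneSpectrum (𝓞 F)) :
    Option (𝓞 F ⧸ v.asIdeal) → GL (Fin 2) F
  | none => tri 1 0 (pi v) one_ne_zero (pi_ne v)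
  | some b => tri (pi v) (Quotient.out b : 𝓞 F) 1 (pi_ne v) one_ne_zero

/-- The scalar matrix `(π, 0; 0, π)`. -/
noncomputable def scalMat (v : HeightOneSpectrum (𝓞 F)) : GL (Fin 2) F :=
  tri (pi v) 0 (pi v) (pi_ne v) (pi_ne v)

open Classical in
/-- The element of `GL_2` over the finite adeles with the component `γ ∈ GL_2(F)` at `v` and all
other components equal to one. -/
noncomputable def atPlace (v : HeightOneSpectrum (𝓞 F)) (γ : GL (Fin 2) F) : GLA F :=
  RestrictedProduct.mulSingle (fun v => intGL v) v (toGLv v γ)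

/-- The element is in the factor `GL_2(O_v)`. -/
def InMax (v : HeightOneSpectrum (𝓞 F)) (x : GLA F) : Prop :=
  x.comp v ∈ intGL v ∧ ∀ w, w ≠ v → x.comp w = 1

theorem inMax_one (v : HeightOneSpectrum (𝓞 F)) : InMax v (1 : GLA F) :=
  ⟨one_mem _, fun _ _ => rfl⟩

theorem inMax_mul {v : HeightOneSpectrum (𝓞 F)} {x y : GLA F} (hx : InMax v x) (hy : InMax v y) :
    InMax v (x * y) :=
  ⟨mul_mem hx.1 hy.1, fun w hw => by rw [comp_mul, hx.2 w hw, hy.2 w hw, mul_one]⟩

theorem inMax_inv {v : HeightOneSpectrum (𝓞 F)} {x : GLA F} (hx : InMax v x) : InMax v x⁻¹ :=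
  ⟨inv_mem hx.1, fun w hw => by rw [comp_inv, hx.2 w hw, inv_one]⟩

/-- The subgroup `GL_2(O_v)` of `GL_2` over the finite adeles. -/
def maxAt (v : HeightOneSpectrum (𝓞 F)) : Subgroup (GLA F) where
  carrier := {x | InMax v x}
  one_mem' := inMax_one v
  mul_mem' := inMax_mul
  inv_mem' := inMax_inv

end Pool.Agent.Run7.h261.CG
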