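import Pool.Agent.Run7.h261.CG.Coh

/-!
# Hecke eigenclasses in degrees zero and one
-/

set_option autoImplicit false

namespace Pool.Agent.Run7.h261.CG

open CategoryTheory

section

variable {G Γ : Type} [Group G] [Group Γ] {ι : Γ →* G} {k : Type} [Field k] {W : Type}
  [AddCommGroup W] [Module k W] {U : Subgroup G} {τ : Representation k U W} {S : Subgroup G}

/-- The properties of the elements `r_i`, `z` which define the Hecke operators. -/
structure GoodData (S U K : Subgroup G) (τ : Representation k U W) {I : Type} (r : I → G) (z : G) :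
    Prop where
  perm : Permutes U K r
  le : K ≤ U
  triv : ∀ w (hw : w ∈ K), τ ⟨w, le hw⟩ = 1
  central : ∀ g, g * z = z * g
  det : ∀ i j, r i * r j * z⁻¹ ∈ S

theorem equi_trans {z : G} (hz : ∀ g, g * z = z * g) {f : G → W} (hf : Equi τ f) :
    Equi τ (transLin (k := k) z f) := by
  intro u x
  show τ u (f (x * u * z)) = f (x * z)
  rw [mul_assoc, hz, ← mul_assoc]
  exact hf u _

variable {I : Type} [Fintype I] {r : I → G} {z : G}

/-- The cocycle `(T² - n² S) c`. -/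
theorem exists_cocycle (hT : Stable τ (heckeLin r))
    (hS : Stable τ (transLin z))
    (c : groupCohomology.cocycles₁ (coeff ι τ)) {a d : k}
    (h1 : act (Tmap ι τ r hT) 1 (groupCohomology.H1π _ c) =
      a • groupCohomology.H1π _ c)
    (h2 : act (Smap ι τ z hS) 1 (groupCohomology.H1π _ c) =
      d • groupCohomology.H1π _ c) :
    ∃ c' : groupCohomology.cocycles₁ (coeff ι τ),
      groupCohomology.H1π _ c' =
        (a ^ 2 - (Fintype.card I : k) ^ 2 * d) • groupCohomology.H1π _ c ∧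
      ∀ γ x, (c' γ).1 x = eis r z (c γ).1 x := by
  obtain ⟨c1, hc1, hc1'⟩ := map_H1π (Tmap ι τ r hT) c
  obtain ⟨c2, hc2, hc2'⟩ := map_H1π (Tmap ι τ r hT) c1
  obtain ⟨c3, hc3, hc3'⟩ := map_H1π (Smap ι τ z hS) c
  refine ⟨c2 - (Fintype.card I ^ 2) • c3, ?_, ?_⟩
  · rw [H1π_sub_nsmul, ← hc2, ← hc3, ← hc1, h1, map_smul, h1, h2, sub_smul, smul_smul, ← sq,
      mul_smul, Nat.cast_pow]
  · intro γ x
    rw [← heckeSum_twice]
    have e2 : (c2 γ).1 = heckeSum r (heckeSum r (c γ).1) := by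
      rw [hc2', hc1']; rfl
    have e3 : (c3 γ).1 = fun x => (c γ).1 (x * z) := by
      rw [hc3']; rfl
    show (c2 γ).1 x - ((Fintype.card I ^ 2) • (c3 γ).1 x) = _
    rw [e2, e3]

end

section

variable {G Γ : Type} [Group G] [Group Γ] [TopologicalSpace G] [IsTopologicalGroup G]
  {ι : Γ →* G} {k : Type} [Field k] {W : Type}
  [AddCommGroup W] [Module k W] {U : Subgroup G} {τ : Representation k U W} {S : Subgroup G}
  [S.Normal]

/-- **Degree one.** -/
theorem degree_one (hSA : StrongApprox ι S) (hCSP : CongrProp ι S W) (hF : FiniteCosets ι)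
    {V0 : Subgroup G} (hV0 : IsOpen (V0 : Set G)) (hV0U : V0 ≤ U)
    (hτ : ∀ w (hw : w ∈ V0), τ ⟨w, hV0U hw⟩ = 1)
    (hcore : ∀ V : Subgroup G, IsOpen (V : Set G) → ∃ V' : Subgroup G, IsOpen (V' : Set G) ∧
      V' ≤ V ∧ V' ≤ V0 ∧ ∀ u ∈ V0, ∀ w ∈ V', u * w * u⁻¹ ∈ V')
    {P : Type} (I : P → Type) [∀ v, Fintype (I v)] (r : ∀ v, I v → G) (z : P → G)
    (K : P → Subgroup G) (hK : ∀ v, GoodData S U (K v) τ (r v) (z v))
    (hfin : ∀ V : Subgroup G, IsOpen (V : Set G) → {v | ¬ K v ≤ V}.Finite)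
    (hT : ∀ v, Stable τ (heckeLin (r v)))
    (hS : ∀ v, Stable τ (transLin (z v)))
    (a d : P → k) {x : groupCohomology (coeff ι τ) 1} (hx : x ≠ 0)
    (h1 : ∀ v, act (Tmap ι τ (r v) (hT v)) 1 x = a v • x)
    (h2 : ∀ v, act (Smap ι τ (z v) (hS v)) 1 x = d v • x) :
    {v | a v ^ 2 ≠ (Fintype.card (I v) : k) ^ 2 * d v}.Finite := by
  by_cases hall : ∀ v, a v ^ 2 = (Fintype.card (I v) : k) ^ 2 * d v
  · convert Set.finite_empty
    ext v
    simp [hall v]
  push Not at hall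
  obtain ⟨v, hv⟩ := hall
  obtain ⟨c, rfl⟩ : ∃ c, x = groupCohomology.H1π _ c := by
    induction x using groupCohomology.H1_induction_on with
    | h c => exact ⟨c, rfl⟩
  obtain ⟨c', hc', hcv⟩ := exists_cocycle (hT v) (hS v) c (h1 v) (h2 v)
  -- the first step
  have hce : ∀ γ, Inv V0 fun x => (c γ).1 x := by
    intro γ u hu x
    have := (c γ).2 ⟨u, hV0U hu⟩ x
    rw [hτ u hu] at this
    exact this
  have hc'e : ∀ γ, Inv V0 (eis (r v) (z v) (fun x => (c γ).1 x)) := by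
    intro γ u hu x
    have := (c' γ).2 ⟨u, hV0U hu⟩ x
    rw [hτ u hu] at this
    have h3 := hcv γ (x * u)
    have h4 := hcv γ x
    rw [← h3, ← h4]
    exact this
  obtain ⟨V, hV, hVV, b, hb, hcb⟩ := exists_bd_eis (r := r v) (z := z v) hSA hCSP hF (hK v).det
    (isCoc_coe c) hV0 hce hc'e hcore
  refine (hfin V hV).subset fun w hw hKw => ?_
  -- the second step
  obtain ⟨b', hb', hcb'⟩ := exists_equi (r := r w) (z := z w) hSA (hK w).det (hK w).central
    (hK w).perm hV (hVV.trans hV0U) hKw (fun w hw => hτ w (hVV hw)) (isCoc_coe c')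
    (fun γ => (c' γ).2) hb (fun γ hγ x => by rw [← hcb γ hγ x]; exact hcv γ x)
  set y := groupCohomology.H1π _ c with hy
  have hw1 : act (Tmap ι τ (r w) (hT w)) 1
      (groupCohomology.H1π _ c') = a w • groupCohomology.H1π _ c' := by
    rw [hc', map_smul, h1 w, smul_comm]
  have hw2 : act (Smap ι τ (z w) (hS w)) 1
      (groupCohomology.H1π _ c') = d w • groupCohomology.H1π _ c' := by
    rw [hc', map_smul, h2 w, smul_comm]
  obtain ⟨c2, hc2, hcv2⟩ := exists_cocycle (hT w) (hS w) c' hw1 hw2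
  have hw3 : act (Tmap ι τ (r w) (hT w)) 1
      (groupCohomology.H1π _ c2) = a w • groupCohomology.H1π _ c2 := by
    rw [hc2, map_smul, hw1, smul_comm]
  have hw4 : act (Smap ι τ (z w) (hS w)) 1
      (groupCohomology.H1π _ c2) = d w • groupCohomology.H1π _ c2 := by
    rw [hc2, map_smul, hw2, smul_comm]
  obtain ⟨c3, hc3, hcv3⟩ := exists_cocycle (hT w) (hS w) c2 hw3 hw4
  have h0 : groupCohomology.H1π _ c3 = 0 := by
    refine H1π_zero_of_bd c3 hb' fun γ x => ?_
    rw [hcv3, ← hcb' γ x]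
    congr 1
    funext x
    exact hcv2 γ x
  rw [hc3, hc2, hc', smul_smul, smul_smul] at h0
  rcases smul_eq_zero.1 h0 with h5 | h5
  · rcases mul_eq_zero.1 h5 with h6 | h6
    · rcases mul_eq_zero.1 h6 with h7 | h7
      · exact hw (sub_eq_zero.1 h7)
      · exact hw (sub_eq_zero.1 h7)
    · exact hv (sub_eq_zero.1 h6)
  · exact hx h5

/-- **Degree zero.** -/
theorem degree_zero (hSA : StrongApprox ι S)
    {V0 : Subgroup G} (hV0 : IsOpen (V0 : Set G)) (hV0U : V0 ≤ U)
    (hτ : ∀ w (hw : w ∈ V0), τ ⟨w, hV0U hw⟩ = 1)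
    {I : Type} [Fintype I] {r : I → G} {z : G} {K : Subgroup G} (hK : GoodData S U K τ r z)
    (hT : Stable τ (heckeLin r))
    (hS : Stable τ (transLin z))
    {a d : k} {x : groupCohomology (coeff ι τ) 0} (hx : x ≠ 0)
    (h1 : act (Tmap ι τ r hT) 0 x = a • x)
    (h2 : act (Smap ι τ z hS) 0 x = d • x) :
    a ^ 2 = (Fintype.card I : k) ^ 2 * d := by
  set f : (coeff ι τ).ρ.invariants := (groupCohomology.H0Iso _).hom x with hf
  have hinv : ∀ γ x, (f.1 : Fns τ).1 ((ι γ)⁻¹ * x) = (f.1 : Fns τ).1 x := by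
    intro γ x
    have := f.2 γ
    exact congrArg (fun f : Fns τ => f.1 x) this
  have hfV : Inv V0 (f.1 : Fns τ).1 := by
    intro u hu x
    have := (f.1 : Fns τ).2 ⟨u, hV0U hu⟩ x
    rw [hτ u hu] at this
    exact this
  have hl : ∀ δ, ι δ ∈ S → ∀ x, (f.1 : Fns τ).1 (ι δ * x) = (f.1 : Fns τ).1 x := by
    intro δ _ x
    have := hinv δ⁻¹ x
    rwa [map_inv, inv_inv] at this
  have hE : ∀ x, eis r z (f.1 : Fns τ).1 x = 0 :=
    eis_zero hK.det fun s hs x => left_inv hSA hV0 hfV hl hs x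
  have e1 : heckeSum r (f.1 : Fns τ).1 = a • (f.1 : Fns τ).1 := by
    have h3 := map_H0 (Tmap ι τ r hT) x
    rw [h1, map_smul] at h3
    exact (congrArg (fun f : Fns τ => f.1) h3).symm
  have e2 : (fun x => (f.1 : Fns τ).1 (x * z)) = d • (f.1 : Fns τ).1 := by
    have h3 := map_H0 (Smap ι τ z hS) x
    rw [h2, map_smul] at h3
    exact (congrArg (fun f : Fns τ => f.1) h3).symm
  by_contra hne
  refine hx (H0_eq_zero x ?_)
  show f.1 = 0
  apply Subtype.ext
  funext x
  have h4 := hE x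
  rw [← heckeSum_twice, e1] at h4
  have e3 : heckeSum r (a • (f.1 : Fns τ).1) x = a • heckeSum r (f.1 : Fns τ).1 x := by
    simp [heckeSum, Finset.smul_sum]
  rw [e3, e1] at h4
  have e4 : (f.1 : Fns τ).1 (x * z) = d • (f.1 : Fns τ).1 x := congrFun e2 x
  rw [e4, Pi.smul_apply, smul_smul, ← Nat.cast_smul_eq_nsmul k, smul_smul, ← sub_smul] at h4
  rcases smul_eq_zero.1 h4 with h5 | h5
  · exfalso
    apply hne
    rw [Nat.cast_pow] at h5
    rw [sq]
    exact sub_eq_zero.1 h5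
  · exact h5

end

end Pool.Agent.Run7.h261.CG
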