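import Pool.Agent.Run7.h261.CG.AdeleIdx
import Pool.Agent.Run7.h261.CG.Main

/-!
# The Hecke operators for `GL_2` over the finite adeles satisfy the assumptions
-/

set_option autoImplicit false

namespace Pool.Agent.Run7.h261.CG

open NumberField IsDedekindDomain Filter
open scoped RestrictedProduct MatrixGroups

variable {F : Type} [Field F] [NumberField F]

theorem atPlace_same (v : HeightOneSpectrum (𝓞 F)) (γ : GL (Fin 2) F) :
    (atPlace v γ).comp v = toGLv v γ := by
  classical
  exact RestrictedProduct.mulSingle_eq_same _ _ _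

theorem atPlace_ne {v w : HeightOneSpectrum (𝓞 F)} (γ : GL (Fin 2) F) (h : w ≠ v) :
    (atPlace v γ).comp w = 1 := by
  classical
  exact RestrictedProduct.mulSingle_eq_of_ne _ _ h

theorem permutes_hecke (v : HeightOneSpectrum (𝓞 F)) {U : Subgroup (GLA F)}
    (hU : ∀ u ∈ U, u.comp v ∈ intGL v) :
    Permutes U (maxAt v) fun i => atPlace v (heckeMat v i) := by
  intro u hu
  obtain ⟨π, hπ⟩ := exists_perm v (u := u.comp v) (hU u hu)
  refine ⟨π, fun i => ⟨?_, fun w hw => ?_⟩⟩
  · have e : (u⁻¹ * (atPlace v (heckeMat v (π i)))⁻¹ * u * atPlace v (heckeMat v i)).comp v =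
        (u.comp v)⁻¹ * ((toGLv v (heckeMat v (π i)))⁻¹ * u.comp v * toGLv v (heckeMat v i)) := by
      simp only [comp_mul, comp_inv, atPlace_same]
      group
    rw [e]
    exact (intGL v).mul_mem ((intGL v).inv_mem (hU u hu)) (hπ i)
  · simp only [comp_mul, comp_inv, atPlace_ne _ hw]
    group

theorem scal_mat (v : HeightOneSpectrum (𝓞 F)) :
    (toGLv v (scalMat v)).mat = Matrix.scalar (Fin 2) (piv v) := by
  ext i j
  fin_cases i <;> fin_cases j <;>
    simp [scalMat, tri, toGLv, GLv.mat, Matrix.GeneralLinearGroup.mkOfDetNeZero] <;> rfl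

theorem central_scal (v : HeightOneSpectrum (𝓞 F)) (g : GLA F) :
    g * atPlace v (scalMat v) = atPlace v (scalMat v) * g := by
  refine GLA.ext fun w => ?_
  rw [comp_mul, comp_mul]
  by_cases hw : w = v
  · subst hw
    rw [atPlace_same]
    refine Units.ext (α := Matrix (Fin 2) (Fin 2) (w.adicCompletion F)) ?_
    show (g.comp w).mat * (toGLv w (scalMat w)).mat = (toGLv w (scalMat w)).mat * (g.comp w).mat
    rw [scal_mat]
    exact ((Matrix.scalar_commute (piv w) (fun _ => mul_comm _ _) _).eq).symm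
  · rw [atPlace_ne _ hw, mul_one, one_mul]

theorem detv_hecke (v : HeightOneSpectrum (𝓞 F)) (i : Option (𝓞 F ⧸ v.asIdeal)) :
    (detv (toGLv v (heckeMat v i))).val = piv v := det_hm v i

theorem detv_scal (v : HeightOneSpectrum (𝓞 F)) :
    (detv (toGLv v (scalMat v))).val = piv v * piv v := by
  show (toGLv v (scalMat v)).mat.det = _
  rw [scal_mat, Matrix.scalar_apply, Matrix.det_diagonal]
  simp [sq]

theorem det_rel (v : HeightOneSpectrum (𝓞 F)) (i j : Option (𝓞 F ⧸ v.asIdeal)) :
    atPlace v (heckeMat v i) * atPlace v (heckeMat v j) * (atPlace v (scalMat v))⁻¹ ∈ SLA F := by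
  intro w
  show detv ((atPlace v (heckeMat v i) * atPlace v (heckeMat v j) *
    (atPlace v (scalMat v))⁻¹).comp w) = 1
  rw [comp_mul, comp_mul, comp_inv]
  by_cases hw : w = v
  · subst hw
    rw [atPlace_same, atPlace_same, atPlace_same, map_mul, map_mul, map_inv]
    apply Units.ext
    rw [Units.val_mul, Units.val_mul, Units.val_inv_eq_inv_val, detv_hecke, detv_hecke, detv_scal,
      Units.val_one]
    exact mul_inv_cancel₀ (mul_ne_zero (piv_ne w) (piv_ne w))
  · rw [atPlace_ne _ hw, atPlace_ne _ hw, atPlace_ne _ hw, one_mul, inv_one, one_mul, map_one]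

instance : (SLA F).Normal where
  conj_mem := by
    intro x hx g v
    show detv ((g * x * g⁻¹).comp v) = 1
    rw [comp_mul, comp_mul, comp_inv, map_mul, map_mul, map_inv,
      show detv (x.comp v) = 1 from hx v, mul_one, mul_inv_cancel]

/-- The Hecke data at a place where the level is maximal. -/
theorem good_hecke {k W : Type} [Field k] [AddCommGroup W] [Module k W] {U : Subgroup (GLA F)}
    (τ : Representation k U W) (v : HeightOneSpectrum (𝓞 F)) (hU : ∀ u ∈ U, u.comp v ∈ intGL v)
    (hle : maxAt v ≤ U) (hτ : ∀ w (hw : w ∈ maxAt v), τ ⟨w, hle hw⟩ = 1) :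
    GoodData (SLA F) U (maxAt v) τ (fun i => atPlace v (heckeMat v i)) (atPlace v (scalMat v)) where
  perm := permutes_hecke v hU
  le := hle
  triv := hτ
  central := central_scal v
  det := det_rel v

end Pool.Agent.Run7.h261.CG
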