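import Pool.Agent.Run7.h261.CG.AdeleLoc

/-!
# Representatives of the cosets for the Hecke operators
-/

set_option autoImplicit false

namespace Pool.Agent.Run7.h261.CG

open NumberField IsDedekindDomain Filter
open scoped RestrictedProduct MatrixGroups

variable {F : Type} [Field F] [NumberField F] (v : HeightOneSpectrum (𝓞 F))

/-- the representative in the completion -/
noncomputable abbrev rb (b : 𝓞 F ⧸ v.asIdeal) : v.adicCompletion F :=
  algebraMap F (v.adicCompletion F) ((Quotient.out b : 𝓞 F) : F)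

theorem rb_mem (b : 𝓞 F ⧸ v.asIdeal) : rb v b ∈ v.adicCompletionIntegers F := by
  rw [HeightOneSpectrum.mem_adicCompletionIntegers, val_coe]
  exact v.valuation_le_one _

theorem hm_none_val : (hm v none).val = !![1, 0; 0, piv v] := by
  ext i j
  fin_cases i <;> fin_cases j <;>
    simp [hm, heckeMat, tri, toGLv, Matrix.GeneralLinearGroup.mkOfDetNeZero] <;> rfl

theorem hm_some_val (b : 𝓞 F ⧸ v.asIdeal) : (hm v (some b)).val = !![piv v, rb v b; 0, 1] := by
  ext i j
  fin_cases i <;> fin_cases j <;>
    simp [hm, heckeMat, tri, toGLv, Matrix.GeneralLinearGroup.mkOfDetNeZero] <;> rfl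

theorem det_hm (j : Option (𝓞 F ⧸ v.asIdeal)) : (hm v j).det.val = piv v := by
  have : (hm v j).det.val = (hm v j).val.det := rfl
  rw [this]
  cases j with
  | none => rw [hm_none_val, Matrix.det_fin_two_of]; ring
  | some b => rw [hm_some_val, Matrix.det_fin_two_of]; ring

theorem hm_int (j : Option (𝓞 F ⧸ v.asIdeal)) (a b : Fin 2) :
    hm v j a b ∈ v.adicCompletionIntegers F := by
  have hp : piv v ∈ v.adicCompletionIntegers F := by
    rw [HeightOneSpectrum.mem_adicCompletionIntegers, val_pi, ← WithZero.exp_zero,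
      WithZero.exp_le_exp]
    norm_num
  show (hm v j).val a b ∈ _
  cases j with
  | none =>
    rw [hm_none_val]
    fin_cases a <;> fin_cases b
    · exact one_mem _
    · exact zero_mem _
    · exact zero_mem _
    · exact hp
  | some c =>
    rw [hm_some_val]
    fin_cases a <;> fin_cases b
    · exact hp
    · exact rb_mem v c
    · exact zero_mem _
    · exact one_mem _

theorem none_mul (M : GL (Fin 2) (v.adicCompletion F)) (l : Fin 2) :
    ((hm v none)⁻¹ * M) 0 l = M 0 l ∧ ((hm v none)⁻¹ * M) 1 l = (piv v)⁻¹ * M 1 l := by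
  have hp := piv_ne v
  have e : ((hm v none)⁻¹ : GL (Fin 2) (v.adicCompletion F)).val = !![1, 0; 0, (piv v)⁻¹] := by
    rw [val_inv_two, det_hm]
    show (piv v)⁻¹ • !![(hm v none).val 1 1, -(hm v none).val 0 1; -(hm v none).val 1 0,
      (hm v none).val 0 0] = _
    rw [hm_none_val]
    ext i j
    fin_cases i <;> fin_cases j <;> simp [hp]
  constructor
  · show (((hm v none)⁻¹ : GL (Fin 2) (v.adicCompletion F)).val * M.val) 0 l = _
    rw [e, Matrix.mul_apply, Fin.sum_univ_two]; simp
  · show (((hm v none)⁻¹ : GL (Fin 2) (v.adicCompletion F)).val * M.val) 1 l = _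
    rw [e, Matrix.mul_apply, Fin.sum_univ_two]; simp

theorem some_mul (b : 𝓞 F ⧸ v.asIdeal) (M : GL (Fin 2) (v.adicCompletion F)) (l : Fin 2) :
    ((hm v (some b))⁻¹ * M) 0 l = (piv v)⁻¹ * (M 0 l - rb v b * M 1 l) ∧
      ((hm v (some b))⁻¹ * M) 1 l = M 1 l := by
  have hp := piv_ne v
  have e : ((hm v (some b))⁻¹ : GL (Fin 2) (v.adicCompletion F)).val =
      !![(piv v)⁻¹, -((piv v)⁻¹ * rb v b); 0, 1] := by
    rw [val_inv_two, det_hm]
    show (piv v)⁻¹ • !![(hm v (some b)).val 1 1, -(hm v (some b)).val 0 1;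
      -(hm v (some b)).val 1 0, (hm v (some b)).val 0 0] = _
    rw [hm_some_val]
    ext i j
    fin_cases i <;> fin_cases j <;> simp [hp]
  constructor
  · show (((hm v (some b))⁻¹ : GL (Fin 2) (v.adicCompletion F)).val * M.val) 0 l = _
    rw [e, Matrix.mul_apply, Fin.sum_univ_two]
    show (piv v)⁻¹ * M 0 l + -((piv v)⁻¹ * rb v b) * M 1 l = _
    ring
  · show (((hm v (some b))⁻¹ : GL (Fin 2) (v.adicCompletion F)).val * M.val) 1 l = _
    rw [e, Matrix.mul_apply, Fin.sum_univ_two]
    show 0 * M 0 l + 1 * M 1 l = _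
    ring

theorem val_det_mul (j : Option (𝓞 F ⧸ v.asIdeal)) (M : GL (Fin 2) (v.adicCompletion F))
    (hM : Valued.v M.det.val = WithZero.exp (-1 : ℤ)) :
    Valued.v ((hm v j)⁻¹ * M).det.val = 1 := by
  rw [map_mul, map_inv, Units.val_mul, Units.val_inv_eq_inv_val, det_hm, map_mul, map_inv₀, hM,
    val_pi]
  exact inv_mul_cancel₀ WithZero.exp_ne_zero

theorem lt_one_of {x : v.adicCompletion F} (h : Valued.v x ≤ WithZero.exp (-1 : ℤ)) :
    Valued.v x < 1 :=
  lt_of_le_of_lt h (by rw [← WithZero.exp_zero, WithZero.exp_lt_exp]; norm_num)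

/-- Each integral matrix whose determinant is a uniformizer is in one of the cosets. -/
theorem exists_index (M : GL (Fin 2) (v.adicCompletion F))
    (hM : ∀ i j, M i j ∈ v.adicCompletionIntegers F)
    (hd : Valued.v M.det.val = WithZero.exp (-1 : ℤ)) :
    ∃ j, IsInt (v := v) ((hm v j)⁻¹ * M) := by
  have hdet : M.det.val = M 0 0 * M 1 1 - M 0 1 * M 1 0 := Matrix.det_fin_two M.val
  by_cases h0 : Valued.v (M 1 0) < 1 ∧ Valued.v (M 1 1) < 1
  · refine ⟨none, mem_intGL v (fun i l => ?_) (val_det_mul v none M hd)⟩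
    fin_cases i
    · rw [show (⟨0, _⟩ : Fin 2) = 0 from rfl, (none_mul v M l).1]; exact hM 0 l
    · rw [show (⟨1, _⟩ : Fin 2) = 1 from rfl, (none_mul v M l).2]
      fin_cases l
      · exact div_pi v h0.1
      · exact div_pi v h0.2
  · have key : ∃ b, Valued.v (M 0 0 - rb v b * M 1 0) < 1 ∧ Valued.v (M 0 1 - rb v b * M 1 1) < 1 := by
      have hint : ∀ i j, Valued.v (M i j) ≤ 1 := fun i j =>
        (HeightOneSpectrum.mem_adicCompletionIntegers _ _ _).1 (hM i j)
      have hdl : Valued.v M.det.val < 1 := lt_one_of v hd.le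
      -- if one of the entries of the second row is a unit
      have main : ∀ x y x' y' : v.adicCompletion F, Valued.v x ≤ 1 → Valued.v x' ≤ 1 →
          Valued.v y' ≤ 1 → Valued.v y = 1 →
          Valued.v (x' * y - x * y') < 1 →
          ∃ b, Valued.v (x - rb v b * y) < 1 ∧ Valued.v (x' - rb v b * y') < 1 := by
        intro x y x' y' hx hx' hy' hy hdt
        have hy0 : y ≠ 0 := by intro h; rw [h, map_zero] at hy; exact zero_ne_one hy
        have hq : x * y⁻¹ ∈ v.adicCompletionIntegers F := by
          rw [HeightOneSpectrum.mem_adicCompletionIntegers, map_mul, map_inv₀, hy, inv_one, mul_one]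
          exact hx
        obtain ⟨b, hb⟩ := exists_rep v hq
        have h1 : Valued.v (x - rb v b * y) < 1 := by
          have e : x - rb v b * y = -((rb v b - x * y⁻¹) * y) := by field_simp; ring
          rw [e, Valuation.map_neg, map_mul, hy, mul_one]
          exact hb
        refine ⟨b, h1, ?_⟩
        have e : y * (x' - rb v b * y') = (x' * y - x * y') + (x - rb v b * y) * y' := by ring
        have h2 : Valued.v (y * (x' - rb v b * y')) < 1 := by
          rw [e]
          refine lt_of_le_of_lt (Valuation.map_add _ _ _) (max_lt hdt ?_)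
          rw [map_mul]
          exact lt_of_le_of_lt (mul_le_of_le_one_right' hy') h1
        rwa [map_mul, hy, one_mul] at h2
      rcases not_and_or.1 h0 with h | h
      · have hu : Valued.v (M 1 0) = 1 := le_antisymm (hint 1 0) (not_lt.1 h)
        refine main (M 0 0) (M 1 0) (M 0 1) (M 1 1) (hint _ _) (hint _ _) (hint _ _) hu ?_
        have : M 0 1 * M 1 0 - M 0 0 * M 1 1 = - M.det.val := by rw [hdet]; ring
        rw [this, Valuation.map_neg]; exact hdl
      · have hu : Valued.v (M 1 1) = 1 := le_antisymm (hint 1 1) (not_lt.1 h)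
        obtain ⟨b, h1, h2⟩ := main (M 0 1) (M 1 1) (M 0 0) (M 1 0) (hint _ _) (hint _ _) (hint _ _) hu
          (by
            have : M 0 0 * M 1 1 - M 0 1 * M 1 0 = M.det.val := hdet.symm
            rw [this]; exact hdl)
        exact ⟨b, h2, h1⟩
    obtain ⟨b, hb1, hb2⟩ := key
    refine ⟨some b, mem_intGL v (fun i l => ?_) (val_det_mul v _ M hd)⟩
    fin_cases i
    · rw [show (⟨0, _⟩ : Fin 2) = 0 from rfl, (some_mul v b M l).1]
      fin_cases l
      · exact div_pi v hb1
      · exact div_pi v hb2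
    · rw [show (⟨1, _⟩ : Fin 2) = 1 from rfl, (some_mul v b M l).2]; exact hM 1 l

theorem not_int : (piv v)⁻¹ ∉ v.adicCompletionIntegers F := by
  rw [HeightOneSpectrum.mem_adicCompletionIntegers, map_inv₀, val_pi, ← WithZero.exp_neg,
    ← WithZero.exp_zero, WithZero.exp_le_exp]
  norm_num

theorem index_unique {i j : Option (𝓞 F ⧸ v.asIdeal)}
    (h : IsInt (v := v) ((hm v j)⁻¹ * hm v i)) : i = j := by
  cases j with
  | none =>
    cases i with
    | none => rfl
    | some b =>
      exfalso
      have h1 : ((hm v none)⁻¹ * hm v (some b)) 1 1 ∈ v.adicCompletionIntegers F := h.1 1 1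
      rw [(none_mul v _ 1).2] at h1
      have : (hm v (some b)) 1 1 = 1 := by
        show (hm v (some b)).val 1 1 = 1
        rw [hm_some_val]; rfl
      rw [this, mul_one] at h1
      exact not_int v h1
  | some c =>
    cases i with
    | none =>
      exfalso
      have h1 : ((hm v (some c))⁻¹ * hm v none) 0 0 ∈ v.adicCompletionIntegers F := h.1 0 0
      rw [(some_mul v c _ 0).1] at h1
      have e1 : (hm v none) 0 0 = 1 := by
        show (hm v none).val 0 0 = 1
        rw [hm_none_val]; rfl
      have e2 : (hm v none) 1 0 = 0 := by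
        show (hm v none).val 1 0 = 0
        rw [hm_none_val]; rfl
      rw [e1, e2, mul_zero, sub_zero, mul_one] at h1
      exact not_int v h1
    | some b =>
      have h1 : ((hm v (some c))⁻¹ * hm v (some b)) 0 1 ∈ v.adicCompletionIntegers F := h.1 0 1
      rw [(some_mul v c _ 1).1] at h1
      have e1 : (hm v (some b)) 0 1 = rb v b := by
        show (hm v (some b)).val 0 1 = _
        rw [hm_some_val]; rfl
      have e2 : (hm v (some b)) 1 1 = 1 := by
        show (hm v (some b)).val 1 1 = 1
        rw [hm_some_val]; rfl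
      rw [e1, e2, mul_one, HeightOneSpectrum.mem_adicCompletionIntegers, map_mul, map_inv₀,
        val_pi] at h1
      congr 1
      refine rep_inj v (lt_one_of v ?_)
      calc Valued.v (rb v b - rb v c)
          = WithZero.exp (-1 : ℤ) * ((WithZero.exp (-1 : ℤ))⁻¹ * Valued.v (rb v b - rb v c)) := by
            rw [mul_inv_cancel_left₀ WithZero.exp_ne_zero]
        _ ≤ WithZero.exp (-1 : ℤ) * 1 := mul_le_mul_right h1 _
        _ = _ := mul_one _

theorem card_option : Fintype.card (Option (𝓞 F ⧸ v.asIdeal)) = Ideal.absNorm v.asIdeal + 1 := by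
  rw [Fintype.card_option, Ideal.absNorm_apply, Submodule.cardQuot_apply, Nat.card_eq_fintype_card]

/-- The permutation of the cosets. -/
theorem exists_perm {u : GL (Fin 2) (v.adicCompletion F)} (hu : IsInt (v := v) u) :
    ∃ π : Equiv.Perm (Option (𝓞 F ⧸ v.asIdeal)),
      ∀ i, IsInt (v := v) ((hm v (π i))⁻¹ * u * hm v i) := by
  have hdu : Valued.v u.det.val = 1 := by
    have h1 : ∀ g : GL (Fin 2) (v.adicCompletion F), IsInt (v := v) g →
        Valued.v g.det.val ≤ 1 := by
      intro g hg
      have e : g.det.val = g 0 0 * g 1 1 - g 0 1 * g 1 0 := Matrix.det_fin_two g.val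
      have hi : ∀ i j, g i j ∈ v.adicCompletionIntegers F := hg.1
      rw [← HeightOneSpectrum.mem_adicCompletionIntegers, e]
      exact sub_mem (mul_mem (hi _ _) (hi _ _)) (mul_mem (hi _ _) (hi _ _))
    have h2 := h1 u hu
    have h3 := h1 u⁻¹ ((intGL v).inv_mem hu)
    rw [map_inv, Units.val_inv_eq_inv_val, map_inv₀] at h3
    refine le_antisymm h2 ?_
    have hne : Valued.v u.det.val ≠ 0 := by
      rw [Valuation.ne_zero_iff]; exact Units.ne_zero _
    calc (1 : WithZero (Multiplicative ℤ)) = Valued.v u.det.val * (Valued.v u.det.val)⁻¹ :=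
          (mul_inv_cancel₀ hne).symm
      _ ≤ Valued.v u.det.val * 1 := mul_le_mul_right h3 _
      _ = _ := mul_one _
  have hui : ∀ i j, u i j ∈ v.adicCompletionIntegers F := hu.1
  have hex : ∀ i, ∃ j, IsInt (v := v) ((hm v j)⁻¹ * (u * hm v i)) := by
    intro i
    refine exists_index v _ (fun a b => ?_) ?_
    · rw [Units.val_mul, Matrix.mul_apply]
      exact sum_mem fun l _ => mul_mem (hui _ _) (hm_int v i _ _)
    · rw [map_mul, Units.val_mul, map_mul, hdu, one_mul, det_hm, val_pi]
  choose f hf using hex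
  have hinj : Function.Injective f := by
    intro i i' h
    have h1 := hf i
    have h2 := hf i'
    rw [← h] at h2
    have e : (hm v i')⁻¹ * hm v i =
        ((hm v (f i))⁻¹ * (u * hm v i'))⁻¹ * ((hm v (f i))⁻¹ * (u * hm v i)) := by group
    refine index_unique v ?_
    rw [e]
    exact (intGL v).mul_mem ((intGL v).inv_mem h2) h1
  refine ⟨Equiv.ofBijective f (Finite.injective_iff_bijective.1 hinj), fun i => ?_⟩
  rw [mul_assoc]
  exact hf i

end Pool.Agent.Run7.h261.CG
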