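import Pool.Agent.Run7.h261.CG.AdeleDefs

/-!
# The group `GL_2` over the finite adeles: Hecke operators
-/

set_option autoImplicit false

namespace Pool.Agent.Run7.h261.CG

open NumberField IsDedekindDomain Filter
open scoped RestrictedProduct MatrixGroups

section loc

variable {F : Type} [Field F] [NumberField F] (v : HeightOneSpectrum (𝓞 F))

/-- its image in the completion -/
noncomputable abbrev piv : v.adicCompletion F := algebraMap F (v.adicCompletion F) (pi v)

theorem val_coe (x : F) : Valued.v (algebraMap F (v.adicCompletion F) x) = v.valuation F x :=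
  v.valuedAdicCompletion_eq_valuation' x

theorem val_pi : Valued.v (piv v) = WithZero.exp (-1 : ℤ) := by
  rw [val_coe]
  exact Classical.choose_spec (v.valuation_exists_uniformizer F)

theorem piv_ne : piv v ≠ 0 := by
  intro h
  have := val_pi v
  rw [h, map_zero] at this
  exact WithZero.exp_ne_zero this.symm

/-- An element of valuation less than one is divisible by the uniformizer. -/
theorem div_pi {x : v.adicCompletion F} (hx : Valued.v x < 1) :
    (piv v)⁻¹ * x ∈ v.adicCompletionIntegers F := by
  rw [HeightOneSpectrum.mem_adicCompletionIntegers, map_mul, map_inv₀, val_pi]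
  rcases eq_or_ne (Valued.v x) 0 with h | h
  · rw [h, mul_zero]; exact zero_le_one
  · have h1 : Valued.v x ≤ WithZero.exp (-1 : ℤ) := by
      rw [← WithZero.exp_log h] at hx ⊢
      rw [← WithZero.exp_zero, WithZero.exp_lt_exp] at hx
      rw [WithZero.exp_le_exp]
      omega
    calc (WithZero.exp (-1 : ℤ))⁻¹ * Valued.v x
        ≤ (WithZero.exp (-1 : ℤ))⁻¹ * WithZero.exp (-1 : ℤ) := mul_le_mul_right h1 _
      _ = 1 := inv_mul_cancel₀ WithZero.exp_ne_zero

/-- Approximation by the elements of `𝓞 F`. -/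
theorem exists_approx {x : v.adicCompletion F} (hx : x ∈ v.adicCompletionIntegers F) :
    ∃ b : 𝓞 F, Valued.v (algebraMap F (v.adicCompletion F) (b : F) - x) < 1 := by
  rw [HeightOneSpectrum.mem_adicCompletionIntegers] at hx
  have hopen : IsOpen ((fun y : v.adicCompletion F => (piv v)⁻¹ * (y - x)) ⁻¹'
      (v.adicCompletionIntegers F : Set (v.adicCompletion F))) :=
    (Valued.isOpen_valuationSubring _).preimage
      (continuous_const.mul (continuous_id.sub continuous_const))
  obtain ⟨y, hy0⟩ := (v.denseRange_algebraMap F).exists_mem_open hopen ⟨x, by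
    show (piv v)⁻¹ * (x - x) ∈ v.adicCompletionIntegers F
    rw [sub_self, mul_zero]; exact zero_mem _⟩
  have hy : Valued.v (algebraMap F (v.adicCompletion F) y - x) < 1 := by
    have h1 : Valued.v ((piv v)⁻¹ * (algebraMap F (v.adicCompletion F) y - x)) ≤ 1 := hy0
    have h2 : algebraMap F (v.adicCompletion F) y - x =
        piv v * ((piv v)⁻¹ * (algebraMap F (v.adicCompletion F) y - x)) := by
      rw [mul_inv_cancel_left₀ (piv_ne v)]
    rw [h2, map_mul, val_pi]
    calc WithZero.exp (-1 : ℤ) * Valued.v ((piv v)⁻¹ * (algebraMap F (v.adicCompletion F) y - x))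
        ≤ WithZero.exp (-1 : ℤ) * 1 := mul_le_mul_right h1 _
      _ < 1 := by rw [mul_one, ← WithZero.exp_zero, WithZero.exp_lt_exp]; norm_num
  have hy1 : v.valuation F y ≤ 1 := by
    rw [← val_coe]
    have : algebraMap F (v.adicCompletion F) y = (algebraMap F (v.adicCompletion F) y - x) + x := by
      ring
    rw [this]
    exact (Valuation.map_add _ _ _).trans (max_le (le_of_lt hy) hx)
  obtain ⟨b, hb⟩ := v.exists_valuation_sub_lt_of_integer hy1 1
  refine ⟨b, ?_⟩
  have e : algebraMap F (v.adicCompletion F) (b : F) - x =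
      algebraMap F (v.adicCompletion F) ((b : F) - y) + (algebraMap F (v.adicCompletion F) y - x) := by
    rw [map_sub]; ring
  rw [e]
  refine lt_of_le_of_lt (Valuation.map_add _ _ _) (max_lt ?_ hy)
  rw [val_coe]
  exact hb

/-- Approximation by the chosen representatives. -/
theorem exists_rep {x : v.adicCompletion F} (hx : x ∈ v.adicCompletionIntegers F) :
    ∃ b : 𝓞 F ⧸ v.asIdeal,
      Valued.v (algebraMap F (v.adicCompletion F) ((Quotient.out b : 𝓞 F) : F) - x) < 1 := by
  obtain ⟨b, hb⟩ := exists_approx v hx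
  refine ⟨Ideal.Quotient.mk _ b, ?_⟩
  have h1 : (Quotient.out (Ideal.Quotient.mk v.asIdeal b) : 𝓞 F) - b ∈ v.asIdeal := by
    rw [← Ideal.Quotient.eq]
    exact Quotient.out_eq _
  have h2 : v.valuation F (((Quotient.out (Ideal.Quotient.mk v.asIdeal b) : 𝓞 F) : F) - b) < 1 := by
    show v.valuation F (algebraMap (𝓞 F) F _ - algebraMap (𝓞 F) F b) < 1
    rw [← map_sub]
    exact (v.valuation_lt_one_iff_mem (K := F) _).2 h1
  have e : algebraMap F (v.adicCompletion F)
      ((Quotient.out (Ideal.Quotient.mk v.asIdeal b) : 𝓞 F) : F) - x =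
      algebraMap F (v.adicCompletion F)
        (((Quotient.out (Ideal.Quotient.mk v.asIdeal b) : 𝓞 F) : F) - b) +
      (algebraMap F (v.adicCompletion F) (b : F) - x) := by
    rw [map_sub]; ring
  rw [e]
  refine lt_of_le_of_lt (Valuation.map_add _ _ _) (max_lt ?_ hb)
  rw [val_coe]
  exact h2

theorem rep_inj {b b' : 𝓞 F ⧸ v.asIdeal}
    (h : Valued.v (algebraMap F (v.adicCompletion F) ((Quotient.out b : 𝓞 F) : F) -
      algebraMap F (v.adicCompletion F) ((Quotient.out b' : 𝓞 F) : F)) < 1) : b = b' := by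
  rw [← map_sub, val_coe] at h
  have h1 : v.valuation F (algebraMap (𝓞 F) F ((Quotient.out b : 𝓞 F) - Quotient.out b')) < 1 := by
    rw [map_sub]; exact h
  rw [v.valuation_lt_one_iff_mem] at h1
  rw [← Quotient.out_eq b, ← Quotient.out_eq b']
  exact (Ideal.Quotient.eq (I := v.asIdeal)).2 h1

/-- The local matrices. -/
noncomputable abbrev hm (i : Option (𝓞 F ⧸ v.asIdeal)) : GL (Fin 2) (v.adicCompletion F) :=
  toGLv v (heckeMat v i)

theorem val_inv_two (g : GL (Fin 2) (v.adicCompletion F)) :
    (g⁻¹ : GL (Fin 2) (v.adicCompletion F)).val =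
      (g.det.val)⁻¹ • !![g 1 1, - g 0 1; - g 1 0, g 0 0] := by
  rw [Matrix.coe_units_inv, Matrix.inv_def, Matrix.adjugate_fin_two, Ring.inverse_eq_inv']
  rfl

/-- A matrix with integral entries whose determinant is a unit. -/
theorem mem_intGL {g : GL (Fin 2) (v.adicCompletion F)}
    (h : ∀ i j, g i j ∈ v.adicCompletionIntegers F) (hd : Valued.v g.det.val = 1) :
    g ∈ intGL v := by
  refine ⟨h, fun i j => ?_⟩
  show (g⁻¹ : GL (Fin 2) (v.adicCompletion F)).val i j ∈ _
  rw [val_inv_two]
  have hd' : (g.det.val)⁻¹ ∈ v.adicCompletionIntegers F := by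
    rw [HeightOneSpectrum.mem_adicCompletionIntegers, map_inv₀, hd, inv_one]
  have : ∀ i j, (!![g 1 1, - g 0 1; - g 1 0, g 0 0] : Matrix (Fin 2) (Fin 2) (v.adicCompletion F)) i j ∈
      v.adicCompletionIntegers F := by
    intro i j
    fin_cases i <;> fin_cases j
    · exact h 1 1
    · exact neg_mem (h 0 1)
    · exact neg_mem (h 1 0)
    · exact h 0 0
  exact mul_mem hd' (this i j)

end loc

end Pool.Agent.Run7.h261.CG
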