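import Pool.Agent.Run7.h261.CG.AdeleDefs

/-!
# The group `GL_2` over the finite adeles: topology
-/

set_option autoImplicit false

namespace Pool.Agent.Run7.h261.CG

open NumberField IsDedekindDomain Filter
open scoped RestrictedProduct MatrixGroups

variable {F : Type} [Field F] [NumberField F]

/-- An open subgroup contains `GL_2(O_v)` for almost all `v`. -/
theorem finite_not_le (V : Subgroup (GLA F)) (hV : IsOpen (V : Set (GLA F))) :
    {v | ¬ maxAt v ≤ V}.Finite := by
  classical
  let φ : (∀ v : HeightOneSpectrum (𝓞 F), (intGL v : Set (GLv v))) → GLA F :=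
    RestrictedProduct.structureMap (fun v => GLv v) (fun v => (intGL v : Set (GLv v))) cofinite
  have hφ : Continuous φ := (RestrictedProduct.isEmbedding_structureMap).continuous
  have h1 : IsOpen (φ ⁻¹' (V : Set (GLA F))) := hV.preimage hφ
  rw [isOpen_pi_iff] at h1
  obtain ⟨s, t, ht, hst⟩ := h1 (fun v => ⟨1, one_mem _⟩) (by
    show _ ∈ (V : Set (GLA F))
    exact one_mem V)
  refine s.finite_toSet.subset fun v hv => ?_
  by_contra hvs
  refine hv fun x hx => ?_
  have hx' : ∀ w, x.comp w ∈ intGL w := by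
    intro w
    by_cases hw : w = v
    · subst hw; exact hx.1
    · rw [hx.2 w hw]; exact one_mem _
  have h2 : ∀ w ∈ s, (⟨x.comp w, hx' w⟩ : (intGL w : Set (GLv w))) ∈ t w := by
    intro w hw
    have hwv : w ≠ v := fun h => hvs (by rw [← h]; exact hw)
    have h3 := (ht w hw).2
    convert h3
    exact hx.2 w hwv
  have h4 := @hst (fun w => ⟨x.comp w, hx' w⟩) (fun w hw => h2 w hw)
  exact h4

/-- In a compact open subgroup each open subgroup contains an open subgroup which is normalized. -/
theorem exists_core {G : Type*} [Group G] [TopologicalSpace G] [IsTopologicalGroup G]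
    {V0 : Subgroup G} (hV0 : IsOpen (V0 : Set G)) (hc : IsCompact (V0 : Set G)) (V : Subgroup G)
    (hV : IsOpen (V : Set G)) :
    ∃ V' : Subgroup G, IsOpen (V' : Set G) ∧ V' ≤ V ∧ V' ≤ V0 ∧ ∀ u ∈ V0, ∀ w ∈ V', u * w * u⁻¹ ∈ V' := by
  have : CompactSpace V0 := isCompact_iff_compactSpace.1 hc
  let H : Subgroup V0 := V.subgroupOf V0
  have hH : IsOpen (H : Set V0) := hV.preimage continuous_subtype_val
  have hdt : DiscreteTopology (V0 ⧸ H) := QuotientGroup.discreteTopology hH
  have hfq : Finite (V0 ⧸ H) := finite_of_compact_of_discrete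
  have hfi : H.FiniteIndex := Subgroup.finiteIndex_of_finite_quotient
  have hN : IsOpen (H.normalCore : Set V0) := by
    have hcl : IsClosed (H.normalCore : Set V0) := by
      have e : (H.normalCore : Set V0) = ⋂ b : V0, (fun a => b * a * b⁻¹) ⁻¹' (H : Set V0) := by
        ext a
        simp only [Set.mem_iInter]
        rfl
      rw [e]
      exact isClosed_iInter fun b => (Subgroup.isClosed_of_isOpen H hH).preimage (by fun_prop)
    exact Subgroup.isOpen_of_isClosed_of_finiteIndex _ hcl
  refine ⟨H.normalCore.map V0.subtype, ?_, ?_, ?_, ?_⟩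
  · exact hV0.isOpenMap_subtype_val _ hN
  · rintro _ ⟨x, hx, rfl⟩
    exact (Subgroup.normalCore_le H hx)
  · rintro _ ⟨x, hx, rfl⟩
    exact x.2
  · rintro u hu _ ⟨x, hx, rfl⟩
    exact ⟨⟨u, hu⟩ * x * ⟨u, hu⟩⁻¹, (Subgroup.normalCore_normal H).conj_mem _ hx _, rfl⟩

end Pool.Agent.Run7.h261.CG
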