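import Mathlib

/-!
# Functions on an adelic group: definitions
-/

set_option autoImplicit false

namespace Pool.Agent.Run7.h261.CG

/-- The sum of the values `f (x r_i)`. -/
def heckeSum {G W : Type*} [Group G] [AddCommGroup W] {I : Type*} [Fintype I] (r : I → G)
    (f : G → W) (x : G) : W := ∑ i, f (x * r i)

/-- `τ(u) f(x u) = f(x)` for `u ∈ U`. -/
def Equi {G : Type*} [Group G] {k W : Type*} [CommRing k] [AddCommGroup W] [Module k W]
    {U : Subgroup G} (τ : Representation k U W) (f : G → W) : Prop :=
  ∀ (u : U) x, τ u (f (x * u)) = f x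

/-- The element `u` acts trivially. -/
def Triv {k U W : Type} [CommRing k] [Group U] [AddCommGroup W] [Module k W]
    (τ : Representation k U W) (u : U) : Prop := τ u = 1

/-- The element `x` is not zero. -/
def NonZero {V : Type} [AddCommGroup V] (x : V) : Prop := x ≠ 0

/-- `φ(x) = c x`. -/
def Eig {k V : Type} [CommRing k] [AddCommGroup V] [Module k V] (φ : V →ₗ[k] V) (c : k) (x : V) :
    Prop := φ x = c • x

/-- The linear map `φ` commutes with the representation. -/
def Commutes {k Γ V : Type} [CommRing k] [Group Γ] [AddCommGroup V] [Module k V]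
    (ρ : Representation k Γ V) (φ : V →ₗ[k] V) : Prop := ∀ γ x, φ (ρ γ x) = ρ γ (φ x)

open CategoryTheory in
/-- The endomorphism of the representation given by a linear map. -/
noncomputable def mkHom {k Γ V : Type} [CommRing k] [Group Γ] [AddCommGroup V] [Module k V]
    (ρ : Representation k Γ V) (φ : V →ₗ[k] V) (h : Commutes ρ φ) : Rep.of ρ ⟶ Rep.of ρ :=
  Rep.ofHom ⟨φ, fun γ => LinearMap.ext (h γ)⟩

open CategoryTheory in
/-- The endomorphism of the group cohomology given by an endomorphism of the representation. -/
noncomputable def act {k Γ : Type} [CommRing k] [Group Γ] {A : Rep.{0} k Γ} (φ : A ⟶ A) (n : ℕ) :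
    groupCohomology A n →ₗ[k] groupCohomology A n :=
  ((groupCohomology.functor k Γ n).map φ).hom

end Pool.Agent.Run7.h261.CG
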