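import Pool.Agent.Run7.h261.CG.Base

/-!
# The operators on the functions on an adelic group
-/

set_option autoImplicit false

namespace Pool.Agent.Run7.h261.CG

open CategoryTheory

section defs

variable {G Γ : Type} [Group G] [Group Γ] (ι : Γ →* G) {k : Type} [CommRing k] {W : Type}
  [AddCommGroup W] [Module k W] {U : Subgroup G} (τ : Representation k U W)

theorem equi_add {f g : G → W} (hf : Equi τ f) (hg : Equi τ g) : Equi τ (f + g) := by
  intro u x
  simp only [Pi.add_apply, map_add, hf u x, hg u x]

theorem equi_zero : Equi τ (0 : G → W) := by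
  intro u x
  simp

theorem equi_smul (a : k) {f : G → W} (hf : Equi τ f) : Equi τ (a • f) := by
  intro u x
  simp only [Pi.smul_apply, map_smul, hf u x]

/-- The module of the functions `f` on `G` with `τ(u) f(x u) = f(x)`. -/
def equiMod : Submodule k (G → W) where
  carrier := {f | Equi τ f}
  add_mem' := equi_add τ
  zero_mem' := equi_zero τ
  smul_mem' a _ := equi_smul τ a

/-- The same as a type. -/
def Fns : Type := equiMod τ

instance : AddCommGroup (Fns τ) := (inferInstance : AddCommGroup (equiMod τ))

instance : Module k (Fns τ) := (inferInstance : Module k (equiMod τ))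

theorem equi_shift (g : G) {f : G → W} (hf : Equi τ f) : Equi τ fun x => f (g⁻¹ * x) := by
  intro u x
  show τ u (f (g⁻¹ * (x * u))) = f (g⁻¹ * x)
  rw [← mul_assoc]; exact hf u _

/-- The left translation `(g f)(x) = f(g⁻¹ x)`. -/
def shiftFun (g : G) (f : Fns τ) : Fns τ := ⟨fun x => f.1 (g⁻¹ * x), equi_shift τ g f.2⟩

theorem shift_add (g : G) (f h : Fns τ) : shiftFun τ g (f + h) = shiftFun τ g f + shiftFun τ g h :=
  rfl

theorem shift_smul (g : G) (a : k) (f : Fns τ) : shiftFun τ g (a • f) = a • shiftFun τ g f := rfl

/-- The left translation as a linear map. -/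
def shift (g : G) : Fns τ →ₗ[k] Fns τ where
  toFun := shiftFun τ g
  map_add' f h := shift_add τ g f h
  map_smul' a f := shift_smul τ g a f

theorem shift_one : shift τ (1 : G) = 1 :=
  LinearMap.ext fun f => Subtype.ext (funext fun x => by
    show f.1 (1⁻¹ * x) = f.1 x
    rw [inv_one, one_mul])

theorem shift_mul (g h : G) : shift τ (g * h) = shift τ g * shift τ h :=
  LinearMap.ext fun f => Subtype.ext (funext fun x => by
    show f.1 ((g * h)⁻¹ * x) = f.1 (h⁻¹ * (g⁻¹ * x))
    rw [mul_inv_rev, mul_assoc])

/-- The group `G` acts on the module of functions by left translations. -/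
def leftRep : Representation k G (Fns τ) where
  toFun := shift τ
  map_one' := shift_one τ
  map_mul' := shift_mul τ

/-- The group `Γ` acts on the module of functions by `(γ f)(x) = f(γ⁻¹ x)`. -/
def coeffRep : Representation k Γ (Fns τ) := (leftRep τ).comp ι

/-- The same as an object of the category of representations. -/
noncomputable abbrev coeff : Rep k Γ := Rep.of (coeffRep ι τ)

/-- The operator preserves the condition `τ(u) f(x u) = f(x)`. -/
def Stable (T : (G → W) →ₗ[k] (G → W)) : Prop := ∀ f, Equi τ f → Equi τ (T f)

/-- The operator commutes with left translations. -/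
def LeftInv (T : (G → W) →ₗ[k] (G → W)) : Prop :=
  ∀ (g : G) f x, T (fun y => f (g * y)) x = T f (g * x)

/-- The operator on the functions as a linear map. -/
def opLin (T : (G → W) →ₗ[k] (G → W)) (hT : Stable τ T) : Fns τ →ₗ[k] Fns τ := T.restrict hT

theorem opLin_comm (T : (G → W) →ₗ[k] (G → W)) (hT : Stable τ T) (hl : LeftInv T) :
    Commutes (coeffRep ι τ) (opLin τ T hT) :=
  fun γ f => Subtype.ext (funext fun x => hl (ι γ)⁻¹ f.1 x)

/-- An operator on the functions which commutes with left translations. -/
noncomputable def opHom (T : (G → W) →ₗ[k] (G → W)) (hT : Stable τ T) (hl : LeftInv T) :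
    coeff ι τ ⟶ coeff ι τ :=
  mkHom (coeffRep ι τ) (opLin τ T hT) (opLin_comm ι τ T hT hl)

theorem heckeSum_add {I : Type} [Fintype I] (r : I → G) (f g : G → W) :
    heckeSum r (f + g) = heckeSum r f + heckeSum r g := by
  ext x; simp [heckeSum, Finset.sum_add_distrib]

theorem heckeSum_smul {I : Type} [Fintype I] (r : I → G) (a : k) (f : G → W) :
    heckeSum r (a • f) = a • heckeSum r f := by
  ext x; simp [heckeSum, Finset.smul_sum]

/-- The sum as a linear map. -/
def heckeLin {I : Type} [Fintype I] (r : I → G) : (G → W) →ₗ[k] (G → W) where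
  toFun f := heckeSum r f
  map_add' f g := heckeSum_add r f g
  map_smul' a f := heckeSum_smul r a f

/-- The translation by `z` as a linear map. -/
def transLin (z : G) : (G → W) →ₗ[k] (G → W) where
  toFun f x := f (x * z)
  map_add' _ _ := rfl
  map_smul' _ _ := rfl

theorem hecke_left {I : Type} [Fintype I] (r : I → G) :
    LeftInv (heckeLin (k := k) (W := W) r) := fun g f x => by
  simp only [heckeLin, heckeSum, LinearMap.coe_mk, AddHom.coe_mk, mul_assoc]

theorem trans_left (z : G) : LeftInv (transLin (k := k) (W := W) z) := fun g f x => by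
  simp only [transLin, LinearMap.coe_mk, AddHom.coe_mk, mul_assoc]

/-- The operator given by the elements `r_i`. -/
noncomputable def Tmap {I : Type} [Fintype I] (r : I → G) (h : Stable τ (heckeLin r)) :
    coeff ι τ ⟶ coeff ι τ :=
  opHom ι τ (heckeLin r) h (hecke_left r)

/-- The operator given by the central element `z`. -/
noncomputable def Smap (z : G) (h : Stable τ (transLin z)) : coeff ι τ ⟶ coeff ι τ :=
  opHom ι τ (transLin z) h (trans_left z)

end defs

end Pool.Agent.Run7.h261.CG
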