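import Pool.Agent.Run7.h261.CG.Abs

/-!
# The second step: if the cocycle is a coboundary on `S` for some deeper level
-/

set_option autoImplicit false

namespace Pool.Agent.Run7.h261.CG

variable {G Γ : Type*} [Group G] [Group Γ] {k W : Type*} [CommRing k] [AddCommGroup W] [Module k W]

/-- For all `u ∈ U` there is a permutation `π` with `u r_i ∈ r_{π(i)} u K`. -/
def Permutes {I : Type*} (U K : Subgroup G) (r : I → G) : Prop :=
  ∀ u ∈ U, ∃ π : Equiv.Perm I, ∀ i, u⁻¹ * (r (π i))⁻¹ * u * r i ∈ K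

section

variable {I : Type*} [Fintype I] {r : I → G} {z : G} {ι : Γ →* G} {c : Γ → G → W}
  {U K : Subgroup G} {τ : Representation k U W}

omit [Fintype I] in
theorem Permutes.double (h : Permutes U K r) (hKU : K ≤ U) {u : G} (hu : u ∈ U) :
    ∃ π : Equiv.Perm (I × I), ∀ p : I × I, ∃ w ∈ K, ∃ w' ∈ K,
      u * r p.1 * r p.2 = r (π p).1 * r (π p).2 * (u * w * w') := by
  obtain ⟨π, hπ⟩ := h u hu
  have h2 : ∀ i, ∃ π' : Equiv.Perm I, ∀ j,
      (u * (u⁻¹ * (r (π i))⁻¹ * u * r i))⁻¹ * (r (π' j))⁻¹ *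
        (u * (u⁻¹ * (r (π i))⁻¹ * u * r i)) * r j ∈ K :=
    fun i => h _ (U.mul_mem hu (hKU (hπ i)))
  choose π' hπ' using h2
  refine ⟨{ toFun := fun p => (π p.1, π' p.1 p.2)
            invFun := fun p => (π.symm p.1, (π' (π.symm p.1)).symm p.2)
            left_inv := fun p => by simp
            right_inv := fun p => by simp }, fun p => ?_⟩
  refine ⟨_, hπ p.1, _, hπ' p.1 p.2, ?_⟩
  simp only [Equiv.coe_fn_mk]
  group

theorem sum_double (f : G → W) (x : G) :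
    ∑ i, ∑ j, f (x * r i * r j) = ∑ p : I × I, f (x * r p.1 * r p.2) := by
  rw [← Finset.univ_product_univ, Finset.sum_product]

/-- The value of `T² - n² S` after a translation by `u ∈ U`. -/
theorem eis_translate (h : Permutes U K r) (hKU : K ≤ U) (hz : ∀ g, g * z = z * g)
    (hτ : ∀ w (hw : w ∈ K), τ ⟨w, hKU hw⟩ = 1) {f : G → W}
    (hf : ∀ u (hu : u ∈ U), ∀ w ∈ K, ∀ x,
      τ ⟨u, hu⟩ (f (x * (u * w))) = τ ⟨u, hu⟩ (f (x * u))) (u : U) (x : G) :
    τ u (eis r z f (x * u)) = eis r z (fun y => τ u (f (y * u))) x := by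
  obtain ⟨π, hπ⟩ := h.double hKU u.2
  simp only [eis, map_sub, map_nsmul]
  have e0 : x * ↑u * z = x * z * u := by rw [mul_assoc, mul_assoc, hz]
  rw [e0]
  congr 1
  rw [sum_double, map_sum, sum_double (fun y => τ u (f (y * u)))]
  refine (Finset.sum_congr rfl fun p _ => ?_).trans
    (Equiv.sum_comp π (fun p => τ u (f (x * r p.1 * r p.2 * u))))
  obtain ⟨w, hw, w', hw', e⟩ := hπ p
  have e1 : x * ↑u * r p.1 * r p.2 = x * r (π p).1 * r (π p).2 * (u * w * w') := by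
    rw [mul_assoc x, mul_assoc x, e]; simp only [mul_assoc]
  rw [e1]
  have h1 := hf (u * w) (U.mul_mem u.2 (hKU hw)) w' hw' (x * r (π p).1 * r (π p).2)
  have h2 := hf u u.2 w hw (x * r (π p).1 * r (π p).2)
  have e2 : τ ⟨u * w, U.mul_mem u.2 (hKU hw)⟩ = τ u := by
    have : (⟨u * w, U.mul_mem u.2 (hKU hw)⟩ : U) = u * ⟨w, hKU hw⟩ := rfl
    rw [this, map_mul, hτ w hw, mul_one]
  rw [e2] at h1
  rw [h1]
  exact h2

/-- `T² - n² S` preserves the equivariant functions. -/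
theorem Equi.eis (h : Permutes U K r) (hKU : K ≤ U) (hz : ∀ g, g * z = z * g)
    (hτ : ∀ w (hw : w ∈ K), τ ⟨w, hKU hw⟩ = 1) {f : G → W} (hf : Equi τ f) :
    Equi τ (eis r z f) := by
  intro u x
  rw [eis_translate h hKU hz hτ]
  · have : (fun y => τ u (f (y * u))) = f := funext fun y => hf u y
    rw [this]
  · intro u hu w hw x
    have h1 := hf ⟨u * w, U.mul_mem hu (hKU hw)⟩ x
    have h2 := hf ⟨u, hu⟩ x
    have e2 : τ ⟨u * w, U.mul_mem hu (hKU hw)⟩ = τ ⟨u, hu⟩ := by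
      have : (⟨u * w, U.mul_mem hu (hKU hw)⟩ : U) = ⟨u, hu⟩ * ⟨w, hKU hw⟩ := rfl
      rw [this, map_mul, hτ w hw, mul_one]
    rw [e2] at h1
    exact h1.trans h2.symm

/-- The equivariance of the sum. -/
theorem Equi.heckeSum (h : Permutes U K r) (hKU : K ≤ U)
    (hτ : ∀ w (hw : w ∈ K), τ ⟨w, hKU hw⟩ = 1) {f : G → W} (hf : Equi τ f) :
    Equi τ (heckeSum r f) := by
  rintro ⟨u, hu⟩ x
  obtain ⟨π, hπ⟩ := h u hu
  simp only [CG.heckeSum, map_sum]
  rw [← Equiv.sum_comp π (fun i => f (x * r i))]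
  refine Finset.sum_congr rfl fun i _ => ?_
  have hu' : u * (u⁻¹ * (r (π i))⁻¹ * u * r i) ∈ U := U.mul_mem hu (hKU (hπ i))
  have h1 := hf ⟨_, hu'⟩ (x * r (π i))
  have e2 : τ ⟨_, hu'⟩ = τ ⟨u, hu⟩ := by
    have : (⟨_, hu'⟩ : U) = ⟨u, hu⟩ * ⟨_, hKU (hπ i)⟩ := rfl
    rw [this, map_mul, hτ _ (hπ i), mul_one]
  rw [e2] at h1
  rw [← h1]
  congr 2
  show x * u * r i = x * r (π i) * (u * (u⁻¹ * (r (π i))⁻¹ * u * r i))
  group

theorem heckeSum_twice (f : G → W) (x : G) :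
    heckeSum r (heckeSum r f) x - (Fintype.card I ^ 2) • f (x * z) = eis r z f x := by
  simp only [heckeSum, eis]

end

section

variable [TopologicalSpace G] [IsTopologicalGroup G] {ι : Γ →* G} {S : Subgroup G} {I : Type*}
  [Fintype I] {r : I → G} {z : G} {c : Γ → G → W} {U K : Subgroup G} {τ : Representation k U W}

/-- **Second step.** If `c` is on `S` the coboundary of a `V`-invariant function then
`(T² - n² S)² c` is the coboundary of an equivariant function. -/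
theorem exists_equi [S.Normal] (hSA : StrongApprox ι S)
    (hrz : ∀ i j, r i * r j * z⁻¹ ∈ S) (hz : ∀ g, g * z = z * g) (hP : Permutes U K r)
    {V : Subgroup G} (hV : IsOpen (V : Set G)) (hVU : V ≤ U) (hKV : K ≤ V)
    (hτ : ∀ w (hw : w ∈ V), τ ⟨w, hVU hw⟩ = 1)
    (hc : IsCoc ι c) (hce : ∀ γ, Equi τ (c γ)) {b : G → W} (hb : Inv V b)
    (hcb : ∀ γ, ι γ ∈ S → ∀ x, c γ x = bd ι b γ x) :
    ∃ b' : G → W, Equi τ b' ∧ ∀ γ x, eis r z (eis r z (c γ)) x = bd ι b' γ x := by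
  have hKU : K ≤ U := hKV.trans hVU
  have hcV : ∀ γ, Inv V (c γ) := by
    intro γ u hu x
    have := hce γ ⟨u, hVU hu⟩ x
    rw [hτ u hu] at this
    exact this
  -- the cocycle which is zero on `S`
  set d : Γ → G → W := fun γ x => c γ x - bd ι b γ x with hd
  have hdc : IsCoc ι d := by
    intro γ δ x
    simp only [hd, hc γ δ x, isCoc_bd (ι := ι) b γ δ x]
    abel
  have hdV : ∀ γ, Inv V (d γ) := by
    intro γ u hu x
    simp only [hd, hcV γ u hu, bd, ← mul_assoc, hb u hu]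
  have hd0 : ∀ γ, ι γ ∈ S → ∀ x, d γ x = 0 := fun γ hγ x => by
    simp only [hd, hcb γ hγ, sub_self]
  have hdl : ∀ γ δ, ι δ ∈ S → ∀ x, d γ (ι δ * x) = d γ x := by
    intro γ δ hδ x
    -- `d (δ⁻¹ γ) = d (γ δ')` with `δ' = γ⁻¹ δ⁻¹ γ`
    have h1 := hdc δ⁻¹ γ x
    rw [hd0 δ⁻¹ (by rw [map_inv]; exact S.inv_mem hδ), zero_add, map_inv, inv_inv] at h1
    have h2 := hdc γ (γ⁻¹ * δ⁻¹ * γ) x
    rw [hd0 (γ⁻¹ * δ⁻¹ * γ) (by
      have : ι (γ⁻¹ * δ⁻¹ * γ) = (ι γ)⁻¹ * (ι δ)⁻¹ * (ι γ)⁻¹⁻¹ := by simp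
      rw [this]
      exact Subgroup.Normal.conj_mem inferInstance _ (S.inv_mem hδ) _), add_zero] at h2
    have e : γ * (γ⁻¹ * δ⁻¹ * γ) = δ⁻¹ * γ := by group
    rw [e] at h2
    rw [← h1, h2]
  have hE : ∀ γ x, eis r z (d γ) x = 0 := fun γ x =>
    eis_zero hrz (fun s hs x => left_inv hSA hV (hdV γ) (hdl γ) hs x) x
  -- first application
  set b1 : G → W := eis r z b with hb1
  have h1 : ∀ γ x, eis r z (c γ) x = bd ι b1 γ x := by
    intro γ x
    have h2 := hE γ x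
    rw [show d γ = fun y => c γ y - bd ι b γ y from rfl, eis_sub] at h2
    rw [sub_eq_zero] at h2
    rw [h2]
    exact eis_bd b γ x
  have hPV : Permutes V K r := fun u hu => hP u (hVU hu)
  have hb1V : Inv V b1 := by
    -- use the trivial representation of `V`
    have h3 : Equi (Representation.trivial k V W) b := fun u x => by
      simpa using hb u u.2 x
    have h4 := h3.eis hPV hKV hz (fun w hw => by ext; simp)
    intro u hu x
    simpa using h4 ⟨u, hu⟩ x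
  -- the functions `f_u`
  have hce1 : ∀ γ, Equi τ (eis r z (c γ)) := fun γ =>
    (hce γ).eis hP hKU hz fun w hw => hτ w (hKV hw)
  have hfu : ∀ (u : U) γ x, τ u (b1 ((ι γ)⁻¹ * x * u)) - b1 ((ι γ)⁻¹ * x) = τ u (b1 (x * u)) - b1 x := by
    intro u γ x
    have h5 := hce1 γ u x
    rw [h1, h1] at h5
    simp only [bd, map_sub, ← mul_assoc] at h5
    rw [sub_eq_sub_iff_sub_eq_sub] at h5
    exact h5
  have hfE : ∀ (u : U) x, eis r z (fun y => τ u (b1 (y * u)) - b1 y) x = 0 := by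
    intro u x
    have hop : IsOpen ((V ⊓ cj (u : G) V : Subgroup G) : Set G) := by
      rw [Subgroup.coe_inf]
      exact hV.inter (isOpen_cj hV)
    refine eis_zero hrz (fun s hs x => left_inv hSA hop ?_ ?_ hs x) x
    · intro v hv x
      obtain ⟨h6, h7⟩ := Subgroup.mem_inf.1 hv
      rw [mem_cj] at h7
      show τ u (b1 (x * v * u)) - b1 (x * v) = _
      rw [hb1V v h6]
      have e : x * v * (u : G) = x * u * ((u : G)⁻¹ * v * u) := by group
      rw [e, hb1V _ h7]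
    · intro δ _ x
      have h8 := hfu u δ⁻¹ x
      rw [map_inv, inv_inv] at h8
      exact h8
  refine ⟨eis r z b1, ?_, ?_⟩
  · intro u x
    rw [eis_translate hP hKU hz fun w hw => hτ w (hKV hw)]
    · have h9 := hfE u x
      rw [eis_sub (fun y => τ u (b1 (y * u))) b1, sub_eq_zero] at h9
      exact h9
    · intro u hu w hw x
      rw [← mul_assoc, hb1V w (hKV hw)]
  · intro γ x
    have : eis r z (c γ) = bd ι b1 γ := funext fun x => h1 γ x
    rw [this]
    exact eis_bd b1 γ x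

end

end Pool.Agent.Run7.h261.CG
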