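import Pool.Agent.Run7.h261.CG.Key
import Pool.Agent.Run7.h261.CG.Two
import Pool.Agent.Run7.h261.CG.Ops

/-!
# The cohomology groups of degrees zero and one
-/

set_option autoImplicit false

namespace Pool.Agent.Run7.h261.CG

open CategoryTheory


section

theorem map_H1π {k Γ : Type} [CommRing k] [Group Γ] {A : Rep.{0} k Γ} (φ : A ⟶ A)
    (c : groupCohomology.cocycles₁ A) :
    ∃ c' : groupCohomology.cocycles₁ A,
      act φ 1 (groupCohomology.H1π A c) = groupCohomology.H1π A c' ∧ ∀ γ, c' γ = φ.hom (c γ) := by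
  refine ⟨groupCohomology.mapCocycles₁ (MonoidHom.id Γ) φ c, ?_, fun γ => ?_⟩
  · exact groupCohomology.H1π_comp_map_apply (MonoidHom.id Γ) φ c
  · rfl

theorem H1π_zero {k Γ : Type} [CommRing k] [Group Γ] {A : Rep.{0} k Γ}
    (c : groupCohomology.cocycles₁ A) (b : A.V) (h : ∀ γ, A.ρ γ b - b = c γ) :
    groupCohomology.H1π _ c = 0 := by
  rw [groupCohomology.H1π_eq_zero_iff]
  exact ⟨b, funext fun γ => h γ⟩

theorem H1π_sub_nsmul {k Γ : Type} [CommRing k] [Group Γ] {A : Rep.{0} k Γ}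
    (c c' : groupCohomology.cocycles₁ A) (n : ℕ) :
    groupCohomology.H1π A (c - n • c') =
      groupCohomology.H1π A c - (n : k) • groupCohomology.H1π A c' := by
  rw [map_sub, map_nsmul, Nat.cast_smul_eq_nsmul]

/-- In degree zero. -/
theorem map_H0 {k Γ : Type} [CommRing k] [Group Γ] {A : Rep.{0} k Γ} (φ : A ⟶ A)
    (x : groupCohomology A 0) :
    (((groupCohomology.H0Iso A).hom (act φ 0 x) :
      A.ρ.invariants) : A.V) = φ.hom (((groupCohomology.H0Iso A).hom x : A.ρ.invariants) : A.V) := by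
  have h := groupCohomology.map_id_comp_H0Iso_hom_apply φ x
  exact congrArg Subtype.val h

theorem H0_eq_zero {k Γ : Type} [CommRing k] [Group Γ] {A : Rep.{0} k Γ}
    (x : groupCohomology A 0)
    (h : (((groupCohomology.H0Iso A).hom x : A.ρ.invariants) : A.V) = 0) : x = 0 := by
  have h1 : (groupCohomology.H0Iso A).hom x = 0 := Subtype.ext h
  have h2 := congrArg (groupCohomology.H0Iso A).inv h1
  simpa using h2

variable {G Γ : Type} [Group G] [Group Γ] {ι : Γ →* G} {k : Type} [CommRing k] {W : Type}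
  [AddCommGroup W] [Module k W] {U : Subgroup G} {τ : Representation k U W}

/-- The cocycle as a function. -/
theorem isCoc_coe (c : groupCohomology.cocycles₁ (coeff ι τ)) :
    IsCoc ι fun γ x => (c γ).1 x := by
  intro γ δ x
  have h := (groupCohomology.mem_cocycles₁_iff (A := coeff ι τ) c.1).1 c.2 γ δ
  have h2 := congrArg (fun f : Fns τ => f.1 x) h
  have h3 : (c (γ * δ)).1 x = (c δ).1 ((ι γ)⁻¹ * x) + (c γ).1 x := h2
  show (c (γ * δ)).1 x = (c γ).1 x + (c δ).1 ((ι γ)⁻¹ * x)
  rw [h3, add_comm]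

theorem H1π_zero_of_bd (c : groupCohomology.cocycles₁ (coeff ι τ)) {b : G → W} (hb : Equi τ b)
    (h : ∀ γ x, (c γ).1 x = bd ι b γ x) : groupCohomology.H1π _ c = 0 :=
  H1π_zero c (⟨b, hb⟩ : Fns τ) fun γ => Subtype.ext (funext fun x => (h γ x).symm)

end

end Pool.Agent.Run7.h261.CG
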