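import Pool.Agent.Run7.h261.CG.AdeleGood
import Pool.Agent.Run7.h261.CG.AdeleTop
import Pool.Agent.W401.Cheb.AbsDefs

/-!
# The vanishing conjecture for `GL_2` over a number field: definitions
-/

set_option autoImplicit false

namespace Pool.Agent.Run7.h261.CG

open NumberField IsDedekindDomain Filter
open Pool.Agent.W401.Cheb
open scoped RestrictedProduct MatrixGroups

section pred

variable {F : Type} [Field F] [NumberField F] (k : Type) [Field k]

/-- The place `v` is above the characteristic of the field `k`. -/
def AboveChar (v : HeightOneSpectrum (𝓞 F)) : Prop := ((ringChar k : ℕ) : 𝓞 F) ∈ v.asIdeal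

/-- The component of `x` at `v` is one. -/
def OneAt (x : GLA F) (v : HeightOneSpectrum (𝓞 F)) : Prop := x.comp v = 1

/-- The component of `x` at `v` is in `GL_2(O_v)`. -/
def IntAt (x : GLA F) (v : HeightOneSpectrum (𝓞 F)) : Prop := x.comp v ∈ intGL v

/-- The subgroup is open and compact. -/
def CompactOpen (U : Subgroup (GLA F)) : Prop :=
  IsOpen (U : Set (GLA F)) ∧ IsCompact (U : Set (GLA F))

/-- There is no torsion in the subgroups `GL_2(F)^+ ∩ x U x⁻¹`. -/
def TorsionFree (U : Subgroup (GLA F)) : Prop :=
  ∀ (γ : GLpos F) (x : GLA F), x⁻¹ * iota F γ * x ∈ U → (∃ n : ℕ, 0 < n ∧ γ ^ n = 1) → γ = 1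

variable {k} {W : Type} [AddCommGroup W] [Module k W] {U : Subgroup (GLA F)}
  (τ : Representation k U W)

/-- The representation is trivial on an open subgroup. -/
def Smooth : Prop :=
  ∃ V : Subgroup (GLA F), IsOpen (V : Set (GLA F)) ∧ ∃ h : V ≤ U, ∀ w (hw : w ∈ V),
    Triv τ ⟨w, h hw⟩

/-- The group `U` acts through the components at the places above the characteristic of `k`. -/
def ThroughP : Prop := ∀ u : U, (∀ v, AboveChar k v → OneAt u.1 v) → Triv τ u

theorem Smooth.dual (h : Smooth τ) : Smooth τ.dual := by
  obtain ⟨V, hV, h, hτ⟩ := h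
  refine ⟨V, hV, h, fun w hw => ?_⟩
  have e : (⟨w, h hw⟩ : U)⁻¹ = ⟨w⁻¹, h (V.inv_mem hw)⟩ := rfl
  refine LinearMap.ext fun f => LinearMap.ext fun x => ?_
  rw [Representation.dual_apply, e, show τ _ = 1 from hτ _ (V.inv_mem hw)]
  rfl

theorem ThroughP.dual (h : ThroughP τ) : ThroughP τ.dual := by
  intro u huv
  have hu : τ u⁻¹ = 1 := h u⁻¹ fun v hv => by
    have := huv v hv
    show (u.1⁻¹).comp v = 1
    rw [comp_inv, show u.1.comp v = 1 from this, inv_one]
  refine LinearMap.ext fun f => LinearMap.ext fun x => ?_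
  rw [Representation.dual_apply, hu]
  rfl

end pred

variable (F : Type) [Field F] [NumberField F] (k : Type) [Field k]

/-- A level with a coefficient system: a compact open subgroup `U` of `GL_2` over the finite adeles
without torsion in the congruence subgroups defined by its conjugates; a finite-dimensional
representation `W` of `U` over the field `k`, smooth, such that `U` acts through the components at
the places above `p = char k`; and a finite set `bad` of places which contains the places above `p`,
such that `U` is the product of `GL_2(O_v)` and a group away from `v` for all `v` not in `bad`. -/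
structure Level where
  U : Subgroup (GLA F)
  compactOpen : CompactOpen U
  torsionFree : TorsionFree U
  W : Type
  [grp : AddCommGroup W]
  [mod : Module k W]
  [fin : Module.Finite k W]
  τ : Representation k U W
  smooth : Smooth τ
  throughP : ThroughP τ
  bad : Set (HeightOneSpectrum (𝓞 F))
  finite : bad.Finite
  above : ∀ v, AboveChar k v → v ∈ bad
  int : ∀ v, v ∉ bad → ∀ u ∈ U, IntAt u v
  max : ∀ v, v ∉ bad → maxAt v ≤ U

attribute [instance] Level.grp Level.mod Level.fin

variable {F k}

theorem Level.triv (L : Level F k) {v : HeightOneSpectrum (𝓞 F)} (hv : v ∉ L.bad) (w : GLA F)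
    (hw : w ∈ maxAt v) : L.τ ⟨w, L.max v hv hw⟩ = 1 :=
  L.throughP _ fun v' hv' => hw.2 v' fun h => hv (h ▸ L.above v' hv')

theorem Level.data (L : Level F k) {v : HeightOneSpectrum (𝓞 F)} (hv : v ∉ L.bad) :
    GoodData (SLA F) L.U (maxAt v) L.τ (fun i => atPlace v (heckeMat v i))
      (atPlace v (scalMat v)) :=
  good_hecke L.τ v (L.int v hv) (L.max v hv) (L.triv hv)

/-- The representatives of the double coset of the matrix `(π, 0; 0, 1)`. -/
noncomputable def heckeRep (v : HeightOneSpectrum (𝓞 F)) (i : Option (𝓞 F ⧸ v.asIdeal)) : GLA F :=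
  atPlace v (heckeMat v i)

/-- The scalar matrix `(π, 0; 0, π)` at the place `v`. -/
noncomputable def scalRep (v : HeightOneSpectrum (𝓞 F)) : GLA F := atPlace v (scalMat v)

theorem Level.stableT (L : Level F k) {v : HeightOneSpectrum (𝓞 F)} (hv : v ∉ L.bad) :
    Stable L.τ (heckeLin (heckeRep v)) := fun _ hf =>
  hf.heckeSum (L.data hv).perm (L.data hv).le (L.data hv).triv

theorem Level.stableS (L : Level F k) {v : HeightOneSpectrum (𝓞 F)} (hv : v ∉ L.bad) :
    Stable L.τ (transLin (scalRep v)) := fun _ hf => equi_trans (L.data hv).central hf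

/-- The cohomology `H^i(Y(U), W)` of the locally symmetric space: the group cohomology of the group
`GL_2(F)^+` with coefficients in the functions `f` on `GL_2` over the finite adeles with
`τ(u) f(x u) = f(x)` for `u ∈ U`. -/
noncomputable def Level.H (L : Level F k) (i : ℕ) : ModuleCat k :=
  groupCohomology (coeff (iota F) L.τ) i

/-- The Hecke operator `T_v` on `H^i(Y(U), W)`, given by the double coset of the matrix
`(π, 0; 0, 1)`: the sum of the right translations by the representatives. -/
noncomputable def Level.T (L : Level F k) {v : HeightOneSpectrum (𝓞 F)} (hv : v ∉ L.bad) (i : ℕ) :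
    L.H i →ₗ[k] L.H i :=
  act (Tmap (iota F) L.τ (heckeRep v) (L.stableT hv)) i

/-- The Hecke operator `S_v` on `H^i(Y(U), W)`, given by the scalar matrix `(π, 0; 0, π)`. -/
noncomputable def Level.S (L : Level F k) {v : HeightOneSpectrum (𝓞 F)} (hv : v ∉ L.bad) (i : ℕ) :
    L.H i →ₗ[k] L.H i :=
  act (Smap (iota F) L.τ (scalRep v) (L.stableS hv)) i

/-- The system of Hecke eigenvalues `T_v ↦ a_v`, `S_v ↦ d_v` occurs in `H^i(Y(U), W)`. -/
def Level.Occurs (L : Level F k) (i : ℕ) (a d : HeightOneSpectrum (𝓞 F) → k) : Prop :=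
  ∃ x : L.H i, NonZero x ∧ ∀ v (hv : v ∉ L.bad), Eig (L.T hv i) (a v) x ∧ Eig (L.S hv i) (d v) x

/-- The trace of the matrix `ρ(σ)`. -/
noncomputable def trRho (ρ : GK F →* GL (Fin 2) k) (σ : GK F) : k := (ρ σ).val.trace

/-- The determinant of the matrix `ρ(σ)`. -/
noncomputable def detRho (ρ : GK F →* GL (Fin 2) k) (σ : GK F) : k := (ρ σ).val.det

/-- The representation is continuous. -/
def ContRep (ρ : GK F →* GL (Fin 2) k) : Prop := IsOpen (ρ.ker : Set (GK F))

/-- The representation is unramified at `v`. -/
def UnramAt (ρ : GK F →* GL (Fin 2) k) (v : HeightOneSpectrum (𝓞 F)) : Prop :=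
  ∀ σ, IsInert v σ → ρ σ = 1

/-- The characteristic polynomial of the Frobenius elements at `v` is `X² - a X + N(v) d`. -/
def FrobAt (ρ : GK F →* GL (Fin 2) k) (v : HeightOneSpectrum (𝓞 F)) (a d : k) : Prop :=
  ∀ σ, IsFrob v σ → trRho ρ σ = a ∧ detRho ρ σ = (Ideal.absNorm v.asIdeal : k) * d

/-- The representation `ρ` of the absolute Galois group is attached to the system of Hecke
eigenvalues: it is continuous, unramified outside of `bad`, and for the Frobenius elements at the
places `v` not in `bad` the characteristic polynomial is `X² - a_v X + N(v) d_v`. -/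
structure Level.Attached (L : Level F k) (a d : HeightOneSpectrum (𝓞 F) → k)
    (ρ : GK F →* GL (Fin 2) k) : Prop where
  cont : ContRep ρ
  unram : ∀ v, v ∉ L.bad → UnramAt ρ v
  frob : ∀ v, v ∉ L.bad → FrobAt ρ v (a v) (d v)

/-- The matrix `ρ(σ)` as a matrix over an algebraic closure of `k`. -/
noncomputable def matBar (ρ : GK F →* GL (Fin 2) k) (σ : GK F) :
    Matrix (Fin 2) (Fin 2) (AlgebraicClosure k) :=
  (ρ σ).val.map (algebraMap k (AlgebraicClosure k))

/-- The representation `ρ` does not factor through a proper parabolic subgroup of `GL_2`, also after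
an extension of the field `k`: over an algebraic closure of `k` there is no common eigenvector. -/
def NonEisenstein (ρ : GK F →* GL (Fin 2) k) : Prop :=
  ∀ x : Fin 2 → AlgebraicClosure k, x ≠ 0 → ∃ σ, ∀ c : AlgebraicClosure k,
    (matBar ρ σ).mulVec x ≠ c • x

/-- The dual coefficient system. -/
noncomputable def Level.dual (L : Level F k) : Level F k where
  U := L.U
  compactOpen := L.compactOpen
  torsionFree := L.torsionFree
  W := Module.Dual k L.W
  τ := L.τ.dual
  smooth := L.smooth.dual
  throughP := L.throughP.dual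
  bad := L.bad
  finite := L.finite
  above := L.above
  int := L.int
  max := L.max

variable (F)

/-- The dimension `3 r_1 + 4 r_2 - 1` of the locally symmetric space. -/
noncomputable def dimY : ℕ := 3 * InfinitePlace.nrRealPlaces F + 4 * InfinitePlace.nrComplexPlaces F - 1

/-- The number `ℓ_0 = r_1 + 2 r_2 - 1`. -/
noncomputable def ell0 : ℕ := InfinitePlace.nrRealPlaces F + 2 * InfinitePlace.nrComplexPlaces F - 1

/-- The number `q_0 = r_1 + r_2`, that is `(dim Y - ℓ_0) / 2`. -/
noncomputable def q0 : ℕ := InfinitePlace.nrRealPlaces F + InfinitePlace.nrComplexPlaces F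

/-! ### Known theorems -/

/-- The diagonal embedding of `SL_2(F)`. -/
noncomputable def diagSL : SL(2, F) →* GLA F := diagGL.comp Matrix.SpecialLinearGroup.toGL

/-- **Strong approximation** for `SL_2` (Eichler, Kneser). -/
def StrongApproximation : Prop :=
  ∀ V : Subgroup (GLA F), IsOpen (V : Set (GLA F)) → ∀ s ∈ SLA F, ∃ δ : SL(2, F), ∃ u ∈ V,
    s = diagSL F δ * u

/-- **Finiteness of class numbers** (Borel): `GL_2(F)^+` has finitely many double cosets with each
open subgroup. -/
def FiniteClassNumbers : Prop :=
  ∀ V : Subgroup (GLA F), IsOpen (V : Set (GLA F)) → ∃ X : Set (GLA F), X.Finite ∧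
    ∀ x, ∃ γ : GLpos F, ∃ y ∈ X, ∃ u ∈ V, x = iota F γ * y * u

/-- **The congruence subgroup property** of `SL_2(F)` (Serre, 1970, for the number fields `F` with at
least two archimedean places): the congruence kernel is central. In other words, a homomorphism `φ`
from a congruence subgroup to a finite abelian group is invariant under the conjugation by an
element `δ` of `SL_2(F)` on a smaller congruence subgroup. -/
def CongruenceSubgroupProperty : Prop :=
  ∀ (B : Type) [AddCommGroup B] [Finite B] (V : Subgroup (GLA F)), IsOpen (V : Set (GLA F)) →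
    ∀ φ : SL(2, F) → B,
      (∀ γ γ', diagSL F γ ∈ V → diagSL F γ' ∈ V → φ (γ * γ') = φ γ + φ γ') →
      ∀ δ, ∃ V' : Subgroup (GLA F), IsOpen (V' : Set (GLA F)) ∧
        ∀ γ, diagSL F γ ∈ V' → φ (δ * γ * δ⁻¹) = φ γ

/-- **Poincaré duality**, and the cohomology of the boundary is Eisenstein (Borel-Serre): if a
system of eigenvalues with a non-Eisenstein Galois representation occurs in `H^i(Y(U), W)` then
the dual system occurs in `H^j(Y(U), W^∨)`, `i + j = dim Y`. -/
def Duality : Prop :=
  ∀ (k : Type) [Field k] [Finite k] (L : Level F k) (i : ℕ) (a d : HeightOneSpectrum (𝓞 F) → k)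
    (ρ : GK F →* GL (Fin 2) k), L.Attached a d ρ → NonEisenstein ρ → L.Occurs i a d →
    ∃ j, i + j = dimY F ∧ L.dual.Occurs j (fun v => a v / d v) fun v => (d v)⁻¹

end Pool.Agent.Run7.h261.CG
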