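import Pool.Agent.Run7.h261.CG.Gal

/-!
# The vanishing conjecture for `GL_2` over a number field: degrees zero and one
-/

set_option autoImplicit false

namespace Pool.Agent.Run7.h261.CG

open NumberField IsDedekindDomain Filter
open Pool.Agent.W401.Cheb
open scoped RestrictedProduct MatrixGroups

section conv

variable {F : Type} [Field F] [NumberField F]

/-- The elements of `SL_2(F)` as elements of `GL_2(F)^+`. -/
noncomputable def toPos : SL(2, F) →* GLpos F :=
  Matrix.SpecialLinearGroup.toGL.codRestrict (posGL F) fun s φ => by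
    have : (Matrix.SpecialLinearGroup.toGL s : GL (Fin 2) F).det = 1 := by
      apply Units.ext
      show (s : Matrix (Fin 2) (Fin 2) F).det = 1
      exact s.2
    rw [this, Units.val_one, map_one]
    exact one_pos

theorem iota_toPos (s : SL(2, F)) : iota F (toPos s) = diagSL F s := rfl

theorem toPos_mem (s : SL(2, F)) : iota F (toPos s) ∈ SLA F := by
  intro v
  apply Units.ext
  show ((s : Matrix (Fin 2) (Fin 2) F).map (algebraMap F (v.adicCompletion F))).det = 1
  have := (RingHom.map_det (algebraMap F (v.adicCompletion F)) (s : Matrix (Fin 2) (Fin 2) F)).symm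
  rw [s.2, map_one] at this
  exact this

theorem exists_place : ∃ _ : HeightOneSpectrum (𝓞 F), True := by
  obtain ⟨M, hM⟩ := Ideal.exists_maximal (𝓞 F)
  exact ⟨⟨M, hM.isPrime, Ring.ne_bot_of_isMaximal_of_not_isField hM (RingOfIntegers.not_isField F)⟩,
    trivial⟩

theorem exists_of_mem {γ : GLpos F} (h : iota F γ ∈ SLA F) : ∃ s : SL(2, F), toPos s = γ := by
  obtain ⟨v, -⟩ := exists_place (F := F)
  have h1 := congrArg Units.val (h v)
  have h2 : algebraMap F (v.adicCompletion F) (γ.1.val.det) = 1 := by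
    rw [RingHom.map_det]; exact h1
  have h3 : γ.1.val.det = 1 := by
    apply (algebraMap F (v.adicCompletion F)).injective
    rw [h2, map_one]
  exact ⟨⟨γ.1.val, h3⟩, Subtype.ext (Units.ext rfl)⟩

theorem strong (h : StrongApproximation F) : StrongApprox (iota F) (SLA F) := by
  intro V hV s hs
  obtain ⟨δ, u, hu, e⟩ := h V hV s hs
  exact ⟨toPos δ, toPos_mem δ, u, hu, e⟩

theorem congr_prop (h : CongruenceSubgroupProperty F) (W : Type) [AddCommGroup W] [Finite W] :
    CongrProp (iota F) (SLA F) W := by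
  intro V hV φ hφ δ hδ
  obtain ⟨δ', rfl⟩ := exists_of_mem hδ
  obtain ⟨V', hV', h1⟩ := h W V hV (fun s => φ (toPos s)) (fun γ γ' hγ hγ' => by
    show φ (toPos (γ * γ')) = _
    rw [map_mul]
    exact hφ _ _ (toPos_mem γ) hγ (toPos_mem γ') hγ') δ'
  refine ⟨V', hV', fun γ hγ hγV => ?_⟩
  obtain ⟨γ', rfl⟩ := exists_of_mem hγ
  have := h1 γ' hγV
  simpa using this

end conv

section

variable {F : Type} [Field F] [NumberField F] {k : Type} [Field k] [Finite k]

/-- **The systems of eigenvalues in degree zero and one.** -/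
theorem Level.low (L : Level F k) (hSA : StrongApproximation F) (hF : FiniteClassNumbers F)
    (hCSP : CongruenceSubgroupProperty F) {i : ℕ} (hi : i ≤ 1)
    {a d : HeightOneSpectrum (𝓞 F) → k} (hx : L.Occurs i a d) :
    {v | v ∉ L.bad ∧ a v ^ 2 ≠ ((Ideal.absNorm v.asIdeal + 1 : ℕ) : k) ^ 2 * d v}.Finite := by
  have : Finite L.W := Module.finite_of_finite k
  obtain ⟨V1, hV1, hV1U, hτ⟩ := L.smooth
  obtain ⟨x, hx0, hx⟩ := hx
  interval_cases i
  · convert Set.finite_empty
    rw [Set.eq_empty_iff_forall_notMem]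
    rintro v ⟨hv, hne⟩
    apply hne
    have h1 := degree_zero (ι := iota F) (strong hSA) hV1 hV1U hτ (L.data hv)
      (L.stableT hv) (L.stableS hv) hx0 (hx v hv).1 (hx v hv).2
    rw [card_option] at h1
    exact h1
  · have hc : IsCompact (V1 : Set (GLA F)) :=
      L.compactOpen.2.of_isClosed_subset (Subgroup.isClosed_of_isOpen V1 hV1) hV1U
    have hfin := degree_one (ι := iota F) (strong hSA) (congr_prop hCSP L.W) hF hV1 hV1U hτ
      (exists_core hV1 hc) (P := {v // v ∉ L.bad})
      (fun v => Option (𝓞 F ⧸ v.1.asIdeal)) (fun v i => atPlace v.1 (heckeMat v.1 i))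
      (fun v => atPlace v.1 (scalMat v.1)) (fun v => maxAt v.1) (fun v => L.data v.2)
      (fun V hV => ((finite_not_le V hV).preimage Subtype.val_injective.injOn).subset
        fun v hv => hv)
      (fun v => L.stableT v.2) (fun v => L.stableS v.2) (fun v => a v.1) (fun v => d v.1) hx0
      (fun v => (hx v.1 v.2).1) (fun v => (hx v.1 v.2).2)
    refine (hfin.image Subtype.val).subset ?_
    rintro v ⟨hv, hne⟩
    refine ⟨⟨v, hv⟩, ?_, rfl⟩
    show a v ^ 2 ≠ _
    rw [card_option]
    exact hne

/-- **Degrees zero and one.** -/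
theorem two_le (hSA : StrongApproximation F) (hF : FiniteClassNumbers F)
    (hCSP : CongruenceSubgroupProperty F) (L : Level F k) {i : ℕ}
    {a d : HeightOneSpectrum (𝓞 F) → k} {ρ : GK F →* GL (Fin 2) k} (hρ : L.Attached a d ρ)
    (hne : NonEisenstein ρ) (hx : L.Occurs i a d) : 2 ≤ i := by
  by_contra h
  exact eisenstein L hρ (L.low hSA hF hCSP (by omega) hx) hne

/-- The other degrees. -/
theorem add_two_le (hSA : StrongApproximation F) (hF : FiniteClassNumbers F)
    (hCSP : CongruenceSubgroupProperty F) (hD : Duality F) (L : Level F k) {i : ℕ}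
    {a d : HeightOneSpectrum (𝓞 F) → k} {ρ : GK F →* GL (Fin 2) k} (hρ : L.Attached a d ρ)
    (hne : NonEisenstein ρ) (hx : L.Occurs i a d) : i + 2 ≤ dimY F := by
  obtain ⟨j, hij, hy⟩ := hD k L i a d ρ hρ hne hx
  by_contra h
  have hj : j ≤ 1 := by omega
  have h1 := L.dual.low hSA hF hCSP hj hy
  refine eisenstein L hρ (h1.subset ?_) hne
  rintro v ⟨hv, hv2⟩
  refine ⟨hv, fun h2 => hv2 ?_⟩
  have hd : d v ≠ 0 := by
    -- the determinant of a Frobenius element
    intro h0
    obtain ⟨σ, hσ⟩ := Pool.Agent.W528.Ord.exists_isFrob v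
    have : (ρ σ).val.det = (Ideal.absNorm v.asIdeal : k) * d v := (hρ.frob v hv σ hσ).2
    rw [h0, mul_zero] at this
    exact (ρ σ).det.ne_zero this
  have h3 : (a v / d v) ^ 2 = ((Ideal.absNorm v.asIdeal + 1 : ℕ) : k) ^ 2 * (d v)⁻¹ := h2
  field_simp at h3
  exact h3.trans (mul_comm _ _)

end

end Pool.Agent.Run7.h261.CG
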