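import Pool.Agent.Run7.h261.CG.Lin

/-!
# Common eigenvectors
-/

set_option autoImplicit false

namespace Pool.Agent.Run7.h261.CG

open Matrix

variable {K : Type*} [Field K]

/-- The kernel of a nonzero matrix is at most a line. -/
theorem line_of_ker {N : Matrix (Fin 2) (Fin 2) K} (hN0 : N ≠ 0) {x y : Fin 2 → K}
    (hx : N.mulVec x = 0) (hx0 : x ≠ 0) (hy : N.mulVec y = 0) : ∃ c : K, y = c • x := by
  have hx1 := congrFun hx 0
  have hx2 := congrFun hx 1
  have hy1 := congrFun hy 0
  have hy2 := congrFun hy 1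
  simp only [Matrix.mulVec, dotProduct, Fin.sum_univ_two, Pi.zero_apply] at hx1 hx2 hy1 hy2
  have key : x 0 * y 1 = x 1 * y 0 := by
    by_contra hne
    have hs : x 0 * y 1 - x 1 * y 0 ≠ 0 := sub_ne_zero.2 hne
    apply hN0
    have a00 : N 0 0 * (x 0 * y 1 - x 1 * y 0) = 0 := by linear_combination y 1 * hx1 - x 1 * hy1
    have a01 : N 0 1 * (x 0 * y 1 - x 1 * y 0) = 0 := by linear_combination x 0 * hy1 - y 0 * hx1
    have a10 : N 1 0 * (x 0 * y 1 - x 1 * y 0) = 0 := by linear_combination y 1 * hx2 - x 1 * hy2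
    have a11 : N 1 1 * (x 0 * y 1 - x 1 * y 0) = 0 := by linear_combination x 0 * hy2 - y 0 * hx2
    ext i j
    fin_cases i <;> fin_cases j
    · exact (mul_eq_zero.1 a00).resolve_right hs
    · exact (mul_eq_zero.1 a01).resolve_right hs
    · exact (mul_eq_zero.1 a10).resolve_right hs
    · exact (mul_eq_zero.1 a11).resolve_right hs
  by_cases h0 : x 0 = 0
  · have h1 : x 1 ≠ 0 := by
      intro h1; apply hx0; funext i; fin_cases i
      · exact h0
      · exact h1
    refine ⟨y 1 / x 1, ?_⟩
    funext i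
    fin_cases i
    · show y 0 = y 1 / x 1 * x 0
      rw [h0] at key ⊢
      have : x 1 * y 0 = 0 := by linear_combination -key
      rw [(mul_eq_zero.1 this).resolve_left h1]; ring
    · show y 1 = y 1 / x 1 * x 1
      field_simp
  · refine ⟨y 0 / x 0, ?_⟩
    funext i
    fin_cases i
    · show y 0 = y 0 / x 0 * x 0
      field_simp
    · show y 1 = y 0 / x 0 * x 1
      field_simp
      linear_combination key

/-- The inverse of an invertible matrix has the same eigenvectors. -/
theorem eigVec_inv {g : GL (Fin 2) K} {x : Fin 2 → K} (hx : x ≠ 0) (h : EigVec g.val x) :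
    EigVec (g⁻¹).val x := by
  obtain ⟨c, hc⟩ := h
  have h1 : (g⁻¹).val.mulVec (g.val.mulVec x) = x := by
    rw [Matrix.mulVec_mulVec, ← Units.val_mul, inv_mul_cancel, Units.val_one, Matrix.one_mulVec]
  have hc0 : c ≠ 0 := by
    intro h0
    rw [hc, h0, zero_smul, Matrix.mulVec_zero] at h1
    exact hx h1.symm
  rw [hc, Matrix.mulVec_smul] at h1
  refine ⟨c⁻¹, ?_⟩
  rw [← h1, smul_smul, inv_mul_cancel₀ hc0, one_smul, Matrix.mulVec_smul]
  conv_rhs => rw [← h1]
  rw [Matrix.mulVec_smul]

theorem exists_eigVec [IsAlgClosed K] (M : Matrix (Fin 2) (Fin 2) K) :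
    ∃ x : Fin 2 → K, x ≠ 0 ∧ EigVec M x := by
  obtain ⟨c, hc⟩ := Module.End.exists_eigenvalue (Matrix.toLin' M)
  obtain ⟨x, hx⟩ := hc.exists_hasEigenvector
  refine ⟨x, hx.2, c, ?_⟩
  have := hx.apply_eq_smul
  rwa [Matrix.toLin'_apply] at this

theorem exists_common {G C : Type*} [Group G] [CommGroup C] [IsCyclic C] [IsAlgClosed K]
    (χ : G →* C) (ρ : G →* GL (Fin 2) K)
    (h : ∀ g, χ g = 1 → (ρ g).val.trace ^ 2 = 4 * (ρ g).val.det) :
    ∃ x : Fin 2 → K, x ≠ 0 ∧ ∀ g, EigVec (ρ g).val x := by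
  by_cases hs : ∀ g, χ g = 1 → ∃ c : K, (ρ g).val = Matrix.scalar (Fin 2) c
  · -- the kernel of the character acts by scalars
    have hcyc : IsCyclic χ.range := inferInstance
    obtain ⟨⟨_, g0, rfl⟩, hg0⟩ := hcyc.exists_generator
    obtain ⟨x, hx, hx0⟩ := exists_eigVec (ρ g0).val
    refine ⟨x, hx, fun g => ?_⟩
    obtain ⟨m, hm⟩ := Subgroup.mem_zpowers_iff.1 (hg0 ⟨χ g, g, rfl⟩)
    have hm' : χ g0 ^ m = χ g := congrArg Subtype.val hm
    have hk : χ (g0 ^ (-m) * g) = 1 := by
      rw [map_mul, map_zpow, ← hm', ← _root_.zpow_add]; simp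
    obtain ⟨c, hc⟩ := hs _ hk
    have e : ρ g = ρ g0 ^ m * ρ (g0 ^ (-m) * g) := by
      rw [← map_zpow, ← map_mul]; congr 1; group
    rw [e, Units.val_mul]
    refine eigVec_mul ?_ ⟨c, by rw [hc, Matrix.scalar_apply, ← Matrix.smul_one_eq_diagonal,
      Matrix.smul_mulVec, Matrix.one_mulVec]⟩
    have hpow : ∀ n : ℕ, EigVec ((ρ g0) ^ n).val x := by
      intro n
      induction n with
      | zero => exact ⟨1, by rw [pow_zero, Units.val_one, Matrix.one_mulVec, one_smul]⟩
      | succ n ih => rw [pow_succ, Units.val_mul]; exact eigVec_mul ih hx0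
    obtain ⟨n, rfl | rfl⟩ := m.eq_nat_or_neg
    · rw [zpow_natCast]; exact hpow n
    · rw [_root_.zpow_neg, zpow_natCast]; exact eigVec_inv hx (hpow n)
  · push Not at hs
    obtain ⟨h0, hh0, hns⟩ := hs
    -- the double eigenvalue
    obtain ⟨x, hx, a, ha⟩ := exists_eigVec (ρ h0).val
    have ha0 : a ≠ 0 := by
      intro h1
      have h2 : (ρ h0)⁻¹.val.mulVec ((ρ h0).val.mulVec x) = x := by
        rw [Matrix.mulVec_mulVec, ← Units.val_mul, inv_mul_cancel, Units.val_one,
          Matrix.one_mulVec]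
      rw [ha, h1, zero_smul, Matrix.mulVec_zero] at h2
      exact hx h2.symm
    set M := (ρ h0).val with hM
    set N : Matrix (Fin 2) (Fin 2) K := a⁻¹ • M - 1 with hN
    have hMN : M = a • (1 + N) := by
      rw [hN]; rw [add_sub_cancel, smul_smul, mul_inv_cancel₀ ha0, one_smul]
    have hNx : N.mulVec x = 0 := by
      rw [hN, Matrix.sub_mulVec, Matrix.smul_mulVec, ha, Matrix.one_mulVec, smul_smul,
        inv_mul_cancel₀ ha0, one_smul, sub_self]
    have hN0 : N ≠ 0 := by
      intro h1
      refine hns a ?_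
      rw [hMN, h1, add_zero, Matrix.scalar_apply, Matrix.smul_one_eq_diagonal]
    -- `N² = 0`
    have hdetN : N.det = 0 := by
      by_contra hne
      exact hx (Matrix.eq_zero_of_mulVec_eq_zero hne hNx)
    have htrN : N.trace = 0 := by
      have h1 := h h0 hh0
      rw [← hM, hMN, Matrix.trace_smul, Matrix.det_smul] at h1
      rw [Matrix.det_fin_two] at hdetN
      simp only [Matrix.trace_fin_two, Matrix.det_fin_two, Matrix.add_apply, Matrix.one_apply_eq,
        Matrix.one_apply_ne (zero_ne_one (α := Fin 2)),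
        Matrix.one_apply_ne (one_ne_zero (α := Fin 2)), smul_eq_mul, Fintype.card_fin] at h1
      rw [Matrix.trace_fin_two]
      have h2 : a ^ 2 * (N 0 0 + N 1 1) ^ 2 = 0 := by
        linear_combination h1 + 4 * a ^ 2 * hdetN
      rcases mul_eq_zero.1 h2 with h3 | h3
      · exact absurd (pow_eq_zero_iff (two_ne_zero) |>.1 h3) ha0
      · exact pow_eq_zero_iff (two_ne_zero) |>.1 h3
    have hNN : N * N = 0 := by
      rw [Matrix.det_fin_two] at hdetN
      rw [Matrix.trace_fin_two] at htrN
      ext i j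
      fin_cases i <;> fin_cases j
      · show (N * N) 0 0 = 0
        rw [Matrix.mul_apply, Fin.sum_univ_two]; linear_combination N 0 0 * htrN - hdetN
      · show (N * N) 0 1 = 0
        rw [Matrix.mul_apply, Fin.sum_univ_two]; linear_combination N 0 1 * htrN
      · show (N * N) 1 0 = 0
        rw [Matrix.mul_apply, Fin.sum_univ_two]; linear_combination N 1 0 * htrN
      · show (N * N) 1 1 = 0
        rw [Matrix.mul_apply, Fin.sum_univ_two]; linear_combination N 1 1 * htrN - hdetN
    -- elements of the kernel of the character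
    have hker : ∀ g, χ g = 1 → EigVec (ρ g).val x := by
      intro g hg
      refine eigVec_of_trace hNN hN0 ?_ hNx hx
      refine eig_of_two hNN (h g hg) ?_ ?_
      · have h1 := h (h0 * g) (by rw [map_mul, hh0, hg, mul_one])
        rw [map_mul, Units.val_mul, ← hM, hMN, Matrix.smul_mul, Matrix.trace_smul,
          Matrix.det_smul, Fintype.card_fin, smul_eq_mul, mul_pow] at h1
        have : a ^ 2 * (((1 + N) * (ρ g).val).trace ^ 2 - 4 * ((1 + N) * (ρ g).val).det) = 0 := by
          linear_combination h1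
        rcases mul_eq_zero.1 this with h3 | h3
        · exact absurd (pow_eq_zero_iff (two_ne_zero) |>.1 h3) ha0
        · exact sub_eq_zero.1 h3
      · have h1 := h (h0 * (h0 * g)) (by rw [map_mul, map_mul, hh0, hg, mul_one, mul_one])
        have e2 : (1 + N) * (1 + N) = 1 + 2 • N := by
          rw [mul_add, add_mul, add_mul, hNN, one_mul, mul_one, one_mul, add_zero, two_smul]
          abel
        rw [map_mul, map_mul, Units.val_mul, Units.val_mul, ← hM, hMN, ← mul_assoc,
          Matrix.smul_mul, Matrix.mul_smul, e2, smul_smul, Matrix.smul_mul, Matrix.trace_smul,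
          Matrix.det_smul, Fintype.card_fin, smul_eq_mul, mul_pow] at h1
        have : (a * a) ^ 2 * (((1 + 2 • N) * (ρ g).val).trace ^ 2 -
            4 * ((1 + 2 • N) * (ρ g).val).det) = 0 := by
          linear_combination h1
        rcases mul_eq_zero.1 this with h3 | h3
        · exact absurd (mul_self_eq_zero.1 (pow_eq_zero_iff (two_ne_zero) |>.1 h3)) ha0
        · exact sub_eq_zero.1 h3
    refine ⟨x, hx, fun g => ?_⟩
    -- `y = g x` is an eigenvector of `h0`
    have hconj : χ (g⁻¹ * h0 * g) = 1 := by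
      rw [map_mul, map_mul, map_inv, hh0, mul_one, inv_mul_cancel]
    obtain ⟨c, hc⟩ := hker _ hconj
    set y := (ρ g).val.mulVec x with hy
    have hMy : M.mulVec y = c • y := by
      rw [hy, Matrix.mulVec_mulVec, hM, ← Units.val_mul]
      have e : ρ h0 * ρ g = ρ g * ρ (g⁻¹ * h0 * g) := by
        rw [← map_mul, ← map_mul]; congr 1; group
      rw [e, Units.val_mul, ← Matrix.mulVec_mulVec, hc, Matrix.mulVec_smul]
    have hy0 : y ≠ 0 := by
      intro h1
      have h2 : (ρ g)⁻¹.val.mulVec y = x := by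
        rw [hy, Matrix.mulVec_mulVec, ← Units.val_mul, inv_mul_cancel, Units.val_one,
          Matrix.one_mulVec]
      rw [h1, Matrix.mulVec_zero] at h2
      exact hx h2.symm
    have hNy : N.mulVec y = (a⁻¹ * c - 1) • y := by
      rw [hN, Matrix.sub_mulVec, Matrix.smul_mulVec, hMy, Matrix.one_mulVec, smul_smul, sub_smul,
        one_smul]
    have hNy0 : N.mulVec y = 0 := by
      have h1 : (N * N).mulVec y = 0 := by rw [hNN, Matrix.zero_mulVec]
      rw [← Matrix.mulVec_mulVec, hNy, Matrix.mulVec_smul, hNy, smul_smul] at h1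
      rcases smul_eq_zero.1 h1 with h2 | h2
      · rw [hNy, mul_self_eq_zero.1 h2, zero_smul]
      · exact absurd h2 hy0
    obtain ⟨c', hc'⟩ := line_of_ker hN0 hNx hx hNy0
    exact ⟨c', hc'⟩

end Pool.Agent.Run7.h261.CG
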