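import Pool.Agent.Run7.h261.CG.Defs
import Pool.Agent.Run7.h261.CG.Lin2
import Pool.Agent.N184.HK.P_FROB

/-!
# Galois representations attached to systems of eigenvalues with `a_v² = (N(v) + 1)² d_v`
-/

set_option autoImplicit false

namespace Pool.Agent.Run7.h261.CG

open NumberField IsDedekindDomain Filter
open Pool.Agent.W401.Cheb
open scoped RestrictedProduct MatrixGroups

section frob

variable {F : Type} [Field F] [NumberField F]

/-- If a Frobenius element fixes the `p`-th roots of unity then `N(v) ≡ 1` modulo `p`. -/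
theorem frob_fix {p : ℕ} (hp : p.Prime) {ζ : AlgebraicClosure F} (hζ : IsPrimitiveRoot ζ p)
    {v : HeightOneSpectrum (𝓞 F)} (hv : (p : 𝓞 F) ∉ v.asIdeal) {σ : GK F} (hσ : IsFrob v σ)
    (hfix : σ ζ = ζ) : p ∣ Ideal.absNorm v.asIdeal - 1 := by
  obtain ⟨Q, hQ, hQv, hQx⟩ := hσ
  have hint : IsIntegral ℤ ζ := hζ.isIntegral hp.pos
  set z : 𝓞 (AlgebraicClosure F) := ⟨ζ, hint⟩ with hz
  have hz' : IsPrimitiveRoot z p := by
    refine IsPrimitiveRoot.of_map_of_injective (f := algebraMap (𝓞 (AlgebraicClosure F)) (AlgebraicClosure F)) ?_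
      RingOfIntegers.coe_injective
    exact hζ
  by_contra hnd
  set N := Ideal.absNorm v.asIdeal with hN
  have hN1 : 1 ≤ N := Nat.one_le_iff_ne_zero.2 (by
    rw [hN, ne_eq, Ideal.absNorm_eq_zero_iff]; exact v.ne_bot)
  have hcop : (N - 1).Coprime p := by
    rw [Nat.coprime_comm]; exact (Nat.Prime.coprime_iff_not_dvd hp).2 hnd
  have hprim : IsPrimitiveRoot (z ^ (N - 1)) p := hz'.pow_of_coprime _ hcop
  -- `1 - z ^ (N - 1) ∈ Q`
  have h1 : σ • z = z := by
    apply RingOfIntegers.ext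
    exact hfix
  have h2 := hQx z
  rw [h1] at h2
  have h3 : z * (1 - z ^ (N - 1)) ∈ Q := by
    have e : z * (1 - z ^ (N - 1)) = z - z ^ N := by
      rw [mul_sub, mul_one, ← pow_succ', Nat.sub_add_cancel hN1]
    rw [e]; exact h2
  have hQp : Q.IsPrime := hQ.isPrime
  have h4 : 1 - z ^ (N - 1) ∈ Q := by
    rcases hQp.mem_or_mem h3 with h | h
    · exfalso
      apply hQp.ne_top
      rw [Ideal.eq_top_iff_one, ← hz'.pow_eq_one]
      exact Ideal.pow_mem_of_mem _ h _ hp.pos
    · exact h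
  -- `p ∈ Q`
  have h5 : ((p : ℕ) : 𝓞 (AlgebraicClosure F)) ∈ Q := by
    obtain ⟨n, rfl⟩ : ∃ n, p = n + 1 := ⟨p - 1, by have := hp.pos; omega⟩
    have h6 := hprim.prod_one_sub_pow_eq_order
    have h7 : ((n + 1 : ℕ) : 𝓞 (AlgebraicClosure F)) =
        ∏ i ∈ Finset.range n, (1 - (z ^ (N - 1)) ^ (i + 1)) := by
      rw [h6]; push_cast; ring
    rw [h7]
    have hn : 0 < n := by have := hp.two_le; omega
    refine Ideal.mem_of_dvd _ (Finset.dvd_prod_of_mem _ (Finset.mem_range.2 hn)) ?_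
    rw [zero_add, pow_one]
    exact h4
  apply hv
  rw [← hQv, Ideal.mem_comap, map_natCast]
  exact h5

/-- There is a Frobenius element with given image which fixes the roots of unity. -/
theorem exists_frob {k : Type} [Field k] {ρ : GK F →* GL (Fin 2) k}
    (hρ : IsOpen (ρ.ker : Set (GK F))) {bad : Set (HeightOneSpectrum (𝓞 F))} (hbad : bad.Finite)
    {ζ : AlgebraicClosure F} {g : GK F} (hg : g ζ = ζ) :
    ∃ v, v ∉ bad ∧ ∃ σ : GK F, IsFrob v σ ∧ ρ σ = ρ g ∧ σ ζ = ζ := by
  have h1 : IsOpen {σ : GK F | ρ σ = ρ g} := by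
    have e : {σ : GK F | ρ σ = ρ g} = (fun σ => g⁻¹ * σ) ⁻¹' (ρ.ker : Set (GK F)) := by
      ext σ
      simp only [Set.mem_ofPred_eq, Set.mem_preimage, SetLike.mem_coe, MonoidHom.mem_ker, map_mul,
        map_inv]
      rw [inv_mul_eq_one]
      exact eq_comm
    rw [e]
    exact hρ.preimage (continuous_const_mul _)
  have h2 : IsOpen {σ : GK F | σ ζ = ζ} := by
    have hfd : FiniteDimensional F (IntermediateField.adjoin F {ζ}) :=
      IntermediateField.adjoin.finiteDimensional (Algebra.IsIntegral.isIntegral ζ)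
    have h3 := IntermediateField.fixingSubgroup_isOpen (IntermediateField.adjoin F {ζ})
    have e : {σ : GK F | σ ζ = ζ} =
        ((IntermediateField.adjoin F {ζ}).fixingSubgroup : Set (GK F)) := by
      ext σ
      constructor
      · intro hσ
        rw [SetLike.mem_coe, IntermediateField.mem_fixingSubgroup_iff]
        intro x hx
        induction hx using IntermediateField.adjoin_induction with
        | mem x hx => rw [Set.mem_singleton_iff.1 hx]; exact hσ
        | algebraMap x => exact σ.commutes x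
        | add x y _ _ hx hy =>
          show σ (x + y) = x + y
          rw [map_add]; exact congrArg₂ _ hx hy
        | inv x _ hx => 
          show σ x⁻¹ = x⁻¹
          rw [map_inv₀]; exact congrArg _ hx
        | mul x y _ _ hx hy =>
          show σ (x * y) = x * y
          rw [map_mul]; exact congrArg₂ _ hx hy
      · intro hσ
        rw [SetLike.mem_coe, IntermediateField.mem_fixingSubgroup_iff] at hσ
        exact hσ ζ (IntermediateField.mem_adjoin_simple_self F ζ)
    rw [e]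
    exact h3
  have h3 : IsOpen {τ : GK F | ρ τ⁻¹ = ρ g ∧ τ⁻¹ ζ = ζ} :=
    (h1.inter h2).preimage continuous_inv
  obtain ⟨v, hv, -, τ, hτ, hfr⟩ := Pool.Agent.N184.HK.t_frob F bad hbad _ h3
    ⟨g⁻¹, by rw [Set.mem_ofPred_eq, inv_inv]; exact ⟨rfl, hg⟩⟩
  exact ⟨v, hv, τ⁻¹, hfr, hτ.1, hτ.2⟩

end frob

section

variable {F : Type} [Field F] [NumberField F] {k : Type} [Field k] [Finite k]

/-- **The Galois representation is Eisenstein.** -/
theorem eisenstein (L : Level F k) {a d : HeightOneSpectrum (𝓞 F) → k} {ρ : GK F →* GL (Fin 2) k}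
    (hρ : L.Attached a d ρ)
    (hfin : {v | v ∉ L.bad ∧ a v ^ 2 ≠ ((Ideal.absNorm v.asIdeal + 1 : ℕ) : k) ^ 2 * d v}.Finite) :
    ¬ NonEisenstein ρ := by
  intro hne
  obtain ⟨p, hpc⟩ := CharP.exists k
  have hp : p.Prime := CharP.char_is_prime k p
  have hpr : ringChar k = p := ringChar.eq k p
  have : Fact p.Prime := ⟨hp⟩
  obtain ⟨ζ, hζ⟩ := HasEnoughRootsOfUnity.exists_primitiveRoot (AlgebraicClosure F) p
  set χ : GK F →* (ZMod p)ˣ := hζ.autToPow F with hχ
  have hker : ∀ g, χ g = 1 → g ζ = ζ := by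
    intro g hg
    have h1 := hζ.autToPow_spec F g
    rw [← hχ, hg, Units.val_one, ZMod.val_one, pow_one] at h1
    exact h1.symm
  set ρ' : GK F →* GL (Fin 2) (AlgebraicClosure k) :=
    (Matrix.GeneralLinearGroup.map (algebraMap k (AlgebraicClosure k))).comp ρ with hρ'
  have key : ∀ g, χ g = 1 → (ρ g).val.trace ^ 2 = 4 * (ρ g).val.det := by
    intro g hg
    obtain ⟨v, hv, σ, hσ, h1, h2⟩ := exists_frob hρ.cont (L.finite.union hfin) (hker g hg)
    rw [Set.mem_union, not_or] at hv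
    obtain ⟨hv1, hv2⟩ := hv
    have h3 : a v ^ 2 = ((Ideal.absNorm v.asIdeal + 1 : ℕ) : k) ^ 2 * d v := by
      by_contra h
      exact hv2 ⟨hv1, h⟩
    have hpv : (p : 𝓞 F) ∉ v.asIdeal := fun h => hv1 (L.above v (by
      unfold AboveChar; rw [hpr]; exact h))
    have h4 := frob_fix hp hζ hpv hσ h2
    have hN1 : 1 ≤ Ideal.absNorm v.asIdeal := Nat.one_le_iff_ne_zero.2 (by
      rw [ne_eq, Ideal.absNorm_eq_zero_iff]; exact v.ne_bot)
    have h5 : (Ideal.absNorm v.asIdeal : k) = 1 := by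
      have : ((Ideal.absNorm v.asIdeal - 1 : ℕ) : k) = 0 := (CharP.cast_eq_zero_iff k p _).2 h4
      rw [Nat.cast_sub hN1, Nat.cast_one] at this
      exact sub_eq_zero.1 this
    have h6 : (ρ σ).val.trace = a v := (hρ.frob v hv1 σ hσ).1
    have h7 : ((ρ σ).val.det : k) = (Ideal.absNorm v.asIdeal : k) * d v := (hρ.frob v hv1 σ hσ).2
    rw [h1] at h6 h7
    rw [h5, one_mul] at h7
    have h8 : (ρ g).val.det = d v := h7
    rw [h6, h8, h3]
    push_cast
    rw [h5]
    ring
  obtain ⟨x, hx, hxg⟩ := exists_common χ ρ' fun g hg => by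
    have e1 : (ρ' g).val = (algebraMap k (AlgebraicClosure k)).mapMatrix (ρ g).val := rfl
    rw [e1, ← RingHom.map_det]
    have e2 : ((algebraMap k (AlgebraicClosure k)).mapMatrix (ρ g).val).trace =
        algebraMap k (AlgebraicClosure k) (ρ g).val.trace := by
      rw [Matrix.trace_fin_two, Matrix.trace_fin_two, map_add]; rfl
    rw [e2, ← map_pow, key g hg, map_mul, map_ofNat]
  obtain ⟨σ, hσ⟩ := hne x hx
  obtain ⟨c, hc⟩ := hxg σ
  exact hσ c hc

end

end Pool.Agent.Run7.h261.CG
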