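import Pool.Agent.Run7.h261.CG.Abs

/-!
# The congruence subgroup property and the operator `T² - n² S`
-/

set_option autoImplicit false

namespace Pool.Agent.Run7.h261.CG

variable {G Γ W : Type*} [Group G] [Group Γ] [AddCommGroup W] [TopologicalSpace G]
  [IsTopologicalGroup G] {ι : Γ →* G} {S : Subgroup G} {I : Type*} [Fintype I] {r : I → G} {z : G}
  {c : Γ → G → W}

/-- `c γ x = 0` for the elements `γ` of `S` with `x⁻¹ γ x ∈ V`. -/
def Van (ι : Γ →* G) (S : Subgroup G) (c : Γ → G → W) (V : Subgroup G) (x : G) : Prop :=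
  ∀ γ, ι γ ∈ S → x⁻¹ * ι γ * x ∈ V → c γ x = 0

theorem exists_van [S.Normal] (hSA : StrongApprox ι S) (hCSP : CongrProp ι S W)
    (hrz : ∀ i j, r i * r j * z⁻¹ ∈ S) (hc : IsCoc ι c) {V : Subgroup G}
    (hV : IsOpen (V : Set G)) (hcV : ∀ γ, Inv V (c γ)) (x : G) :
    ∃ V' : Subgroup G, IsOpen (V' : Set G) ∧ Van ι S (fun γ => eis r z (c γ)) V' x := by
  set y := x * z with hy
  have hVy : IsOpen (cj y V : Set G) := isOpen_cj hV
  -- the homomorphism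
  have hom : ∀ γ γ', ι γ ∈ S → ι γ ∈ cj y V → ι γ' ∈ S → ι γ' ∈ cj y V →
      c (γ * γ') y = c γ y + c γ' y := by
    intro γ γ' _ h1 _ _
    rw [hc]
    congr 1
    have e : (ι γ)⁻¹ * y = y * (y⁻¹ * ι γ * y)⁻¹ := by group
    rw [e]
    exact hcV _ _ (V.inv_mem (mem_cj.1 h1)) _
  have key : ∀ i j, ∃ V' : Subgroup G, IsOpen (V' : Set G) ∧ ∀ γ, ι γ ∈ S → ι γ ∈ V' →
      c γ (x * r i * r j) = c γ y := by
    intro i j
    have hs : x * (r i * r j * z⁻¹) * x⁻¹ ∈ S :=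
      Subgroup.Normal.conj_mem inferInstance _ (hrz i j) x
    obtain ⟨δ, hδ, u, hu, hsu⟩ := hSA _ hVy _ hs
    have hδ' : ι δ⁻¹ ∈ S := by rw [map_inv]; exact S.inv_mem hδ
    obtain ⟨V1, hV1, h1⟩ := hCSP _ hVy (fun γ => c γ y) hom δ⁻¹ hδ'
    refine ⟨V1 ⊓ cj (ι δ * y) V, ?_, ?_⟩
    · rw [Subgroup.coe_inf]
      exact hV1.inter (isOpen_cj hV)
    · intro γ hγ hγV
      obtain ⟨h2, h3⟩ := Subgroup.mem_inf.1 hγV
      rw [mem_cj] at h3
      have e1 : x * r i * r j = ι δ * y * (y⁻¹ * u * y) := by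
        have : x * r i * r j = x * (r i * r j * z⁻¹) * x⁻¹ * y := by rw [hy]; group
        rw [this, hsu]; group
      rw [e1, hcV γ _ (mem_cj.1 hu)]
      have h4 : y⁻¹ * ι (δ⁻¹ * γ * δ) * y ∈ V := by
        have : y⁻¹ * ι (δ⁻¹ * γ * δ) * y = (ι δ * y)⁻¹ * ι γ * (ι δ * y) := by
          simp only [map_mul, map_inv]; group
        rw [this]; exact h3
      have h5 := hc.conj hcV (δ := δ) h4
      have e2 : δ * (δ⁻¹ * γ * δ) * δ⁻¹ = γ := by group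
      rw [e2] at h5
      rw [h5]
      have h6 := h1 γ hγ h2
      simpa using h6
  choose V' hV' hk using key
  have hfin : IsOpen ((⨅ i, ⨅ j, V' i j : Subgroup G) : Set G) := by
    simp only [Subgroup.coe_iInf]
    exact isOpen_iInter_of_finite fun i => isOpen_iInter_of_finite fun j => hV' i j
  refine ⟨cj x⁻¹ (⨅ i, ⨅ j, V' i j), isOpen_cj hfin, ?_⟩
  intro γ hγ hγV
  rw [mem_cj] at hγV
  have e3 : x⁻¹⁻¹ * (x⁻¹ * ι γ * x) * x⁻¹ = ι γ := by group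
  rw [e3] at hγV
  simp only [Subgroup.mem_iInf] at hγV
  show eis r z (c γ) x = 0
  simp only [eis, fun i j => hk i j γ hγ (hγV i j), Finset.sum_const, Finset.card_univ, smul_smul]
  rw [sq, sub_self]

omit [TopologicalSpace G] [IsTopologicalGroup G] in
theorem Van.left {V V0 : Subgroup G} (hVV : V ≤ V0) (hc : IsCoc ι c) (hcV : ∀ γ, Inv V0 (c γ))
    [S.Normal] {x : G} (h : Van ι S c V x) (δ : Γ) : Van ι S c V (ι δ * x) := by
  intro γ hγ hγV
  have h4 : x⁻¹ * ι (δ⁻¹ * γ * δ) * x ∈ V := by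
    have : x⁻¹ * ι (δ⁻¹ * γ * δ) * x = (ι δ * x)⁻¹ * ι γ * (ι δ * x) := by
      simp only [map_mul, map_inv]; group
    rw [this]; exact hγV
  have h5 := hc.conj hcV (δ := δ) (hVV h4)
  have e2 : δ * (δ⁻¹ * γ * δ) * δ⁻¹ = γ := by group
  rw [e2] at h5
  rw [h5]
  refine h _ ?_ h4
  have : ι (δ⁻¹ * γ * δ) = (ι δ)⁻¹ * ι γ * (ι δ)⁻¹⁻¹ := by simp
  rw [this]
  exact Subgroup.Normal.conj_mem inferInstance _ hγ _

omit [TopologicalSpace G] [IsTopologicalGroup G] in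
theorem Van.right {V V0 : Subgroup G} (hcV : ∀ γ, Inv V0 (c γ))
    (hn : ∀ u ∈ V0, ∀ w ∈ V, u * w * u⁻¹ ∈ V) {x : G} (h : Van ι S c V x) {u : G} (hu : u ∈ V0) :
    Van ι S c V (x * u) := by
  intro γ hγ hγV
  rw [hcV γ u hu]
  refine h γ hγ ?_
  have := hn u hu _ hγV
  have e : u * ((x * u)⁻¹ * ι γ * (x * u)) * u⁻¹ = x⁻¹ * ι γ * x := by group
  rwa [e] at this

omit [TopologicalSpace G] [IsTopologicalGroup G] in
/-- The construction of the function whose coboundary is the cocycle. -/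
theorem exists_bd {V V0 : Subgroup G} (hVV : V ≤ V0) (hc : IsCoc ι c)
    (hcV : ∀ γ, Inv V0 (c γ)) (hv : ∀ x, Van ι S c V x) :
    ∃ b : G → W, Inv V b ∧ ∀ γ, ι γ ∈ S → ∀ x, c γ x = bd ι b γ x := by
  classical
  let R : Setoid G := {
    r := fun x x' => ∃ γ, ι γ ∈ S ∧ ∃ u ∈ V, x' = (ι γ)⁻¹ * x * u
    iseqv := {
      refl := fun x => ⟨1, by simp [S.one_mem], 1, V.one_mem, by simp⟩
      symm := by
        rintro x x' ⟨γ, hγ, u, hu, rfl⟩
        exact ⟨γ⁻¹, by rw [map_inv]; exact S.inv_mem hγ, u⁻¹, V.inv_mem hu, by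
          rw [map_inv]; group⟩
      trans := by
        rintro x x' x'' ⟨γ, hγ, u, hu, rfl⟩ ⟨γ', hγ', u', hu', rfl⟩
        exact ⟨γ * γ', by rw [map_mul]; exact S.mul_mem hγ hγ', u * u', V.mul_mem hu hu', by
          rw [map_mul]; group⟩ } }
  have hrep : ∀ x : G, ∃ γ, ι γ ∈ S ∧ ∃ u ∈ V, x = (ι γ)⁻¹ * (Quotient.out (Quotient.mk R x)) * u := by
    intro x
    exact Quotient.exact (Quotient.out_eq (Quotient.mk R x))
  choose g hgS u hu hx using hrep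
  set rp : G → G := fun x => Quotient.out (Quotient.mk R x) with hrp
  -- independence of choices
  have indep : ∀ (y : G) γ γ' w w', ι γ ∈ S → ι γ' ∈ S → w ∈ V → w' ∈ V →
      (ι γ)⁻¹ * y * w = (ι γ')⁻¹ * y * w' → c γ y = c γ' y := by
    intro y γ γ' w w' hγ hγ' hw hw' h
    have e1 : y⁻¹ * ι (γ' * γ⁻¹) * y = w' * w⁻¹ := by
      have h2 : ι γ' * (ι γ)⁻¹ * y * w = y * w' := by
        have := congrArg (fun t => ι γ' * t) h
        simp only [mul_assoc] at this ⊢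
        rw [this]; group
      rw [map_mul, map_inv]
      have h3 : ι γ' * (ι γ)⁻¹ * y = y * w' * w⁻¹ := by rw [← h2]; group
      rw [mul_assoc, mul_assoc, ← mul_assoc (ι γ'), h3]; group
    have hm : y⁻¹ * ι (γ' * γ⁻¹) * y ∈ V := by rw [e1]; exact V.mul_mem hw' (V.inv_mem hw)
    have h0 : c (γ' * γ⁻¹) y = 0 :=
      hv y _ (by rw [map_mul, map_inv]; exact S.mul_mem hγ' (S.inv_mem hγ)) hm
    have h1 := hc (γ' * γ⁻¹) γ y
    rw [inv_mul_cancel_right, h0, zero_add] at h1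
    have e : (ι (γ' * γ⁻¹))⁻¹ * y = y * (y⁻¹ * ι (γ' * γ⁻¹) * y)⁻¹ := by group
    rw [e, hcV γ _ (hVV (V.inv_mem hm))] at h1
    exact h1.symm
  have hval : ∀ x γ w, ι γ ∈ S → w ∈ V → x = (ι γ)⁻¹ * rp x * w → c (g x) (rp x) = c γ (rp x) := by
    intro x γ w hγ hw h
    exact indep _ _ _ _ _ (hgS x) hγ (hu x) hw ((hx x).symm.trans h)
  refine ⟨fun x => c (g x) (rp x), ?_, ?_⟩
  · intro w hw x
    have e : rp (x * w) = rp x := by
      simp only [hrp]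
      congr 1
      refine (Quotient.sound ?_ : Quotient.mk R (x * w) = Quotient.mk R x)
      exact R.iseqv.symm ⟨1, by simp [S.one_mem], w, hw, by simp⟩
    have h1 : x * w = (ι (g x))⁻¹ * rp (x * w) * (u x * w) := by
      rw [e]
      conv_lhs => rw [hx x]
      simp only [hrp, mul_assoc]
    have := hval (x * w) (g x) (u x * w) (hgS x) (V.mul_mem (hu x) hw) h1
    show c (g (x * w)) (rp (x * w)) = c (g x) (rp x)
    rw [this, e]
  · intro γ hγ x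
    have e : rp ((ι γ)⁻¹ * x) = rp x := by
      simp only [hrp]
      congr 1
      refine (Quotient.sound ?_ : Quotient.mk R ((ι γ)⁻¹ * x) = Quotient.mk R x)
      exact R.iseqv.symm ⟨γ, hγ, 1, V.one_mem, by simp⟩
    have h1 : (ι γ)⁻¹ * x = (ι (g x * γ))⁻¹ * rp ((ι γ)⁻¹ * x) * u x := by
      rw [e]
      conv_lhs => rw [hx x]
      simp only [hrp, map_mul, mul_inv_rev, mul_assoc]
    have h2 := hval ((ι γ)⁻¹ * x) (g x * γ) (u x)
      (by rw [map_mul]; exact S.mul_mem (hgS x) hγ) (hu x) h1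
    show c γ x = c (g ((ι γ)⁻¹ * x)) (rp ((ι γ)⁻¹ * x)) - c (g x) (rp x)
    rw [h2, e, hc]
    have e2 : (ι (g x))⁻¹ * rp x = x * (u x)⁻¹ := eq_mul_inv_iff_mul_eq.2 (hx x).symm
    rw [e2, hcV γ _ (hVV (V.inv_mem (hu x)))]
    abel

/-- **First step.** On `S` the cocycle `(T² - n² S) c` is the coboundary of an invariant function. -/
theorem exists_bd_eis [S.Normal] (hSA : StrongApprox ι S) (hCSP : CongrProp ι S W)
    (hF : FiniteCosets ι) (hrz : ∀ i j, r i * r j * z⁻¹ ∈ S) (hc : IsCoc ι c) {V0 : Subgroup G}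
    (hV0 : IsOpen (V0 : Set G)) (hcV : ∀ γ, Inv V0 (c γ))
    (hcE : ∀ γ, Inv V0 (eis r z (c γ)))
    (hcore : ∀ V : Subgroup G, IsOpen (V : Set G) → ∃ V' : Subgroup G, IsOpen (V' : Set G) ∧
      V' ≤ V ∧ V' ≤ V0 ∧ ∀ u ∈ V0, ∀ w ∈ V', u * w * u⁻¹ ∈ V') :
    ∃ V : Subgroup G, IsOpen (V : Set G) ∧ V ≤ V0 ∧
      ∃ b : G → W, Inv V b ∧ ∀ γ, ι γ ∈ S → ∀ x, eis r z (c γ) x = bd ι b γ x := by
  obtain ⟨X, hX, hXc⟩ := hF V0 hV0
  choose V' hV' hvan using exists_van (r := r) (z := z) hSA hCSP hrz hc hV0 hcV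
  have hop : IsOpen ((⨅ x ∈ X, V' x : Subgroup G) : Set G) := by
    simp only [Subgroup.coe_iInf]
    exact hX.isOpen_biInter fun x _ => hV' x
  obtain ⟨V, hV, hV1, hVV, hn⟩ := hcore _ hop
  refine ⟨V, hV, hVV, exists_bd hVV hc.eisc hcE fun x => ?_⟩
  obtain ⟨γ, y, hy, u, hu, rfl⟩ := hXc x
  have h1 : Van ι S (fun γ => eis r z (c γ)) V y := fun γ hγ hγV => by
    refine hvan y γ hγ ?_
    have := hV1 hγV
    simp only [Subgroup.mem_iInf] at this
    exact this y hy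
  have h2 := h1.left hVV hc.eisc hcE γ
  exact h2.right hcE hn hu

end Pool.Agent.Run7.h261.CG
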