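import Mathlib

/-!
# Two-dimensional representations for which a normal subgroup with cyclic quotient has double
eigenvalues
-/

set_option autoImplicit false

namespace Pool.Agent.Run7.h261.CG

open Matrix

section

variable {K : Type*} [Field K]

/-- The matrix `M` maps the vector `x` to a multiple of `x`. -/
def EigVec (M : Matrix (Fin 2) (Fin 2) K) (x : Fin 2 → K) : Prop := ∃ c : K, M.mulVec x = c • x

theorem eigVec_mul {M N : Matrix (Fin 2) (Fin 2) K} {x : Fin 2 → K} (hM : EigVec M x)
    (hN : EigVec N x) : EigVec (M * N) x := by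
  obtain ⟨a, ha⟩ := hM
  obtain ⟨b, hb⟩ := hN
  exact ⟨b * a, by rw [← Matrix.mulVec_mulVec, hb, Matrix.mulVec_smul, ha, smul_smul]⟩

/-- A matrix which is not scalar with a double eigenvalue `a`, in the form `a (1 + N)`. If for all
powers the product with `g` has a double eigenvalue then the kernel of `N` is stable under `g`. -/
theorem eig_of_two {N g : Matrix (Fin 2) (Fin 2) K} (hN : N * N = 0)
    (h0 : g.trace ^ 2 = 4 * g.det)
    (h1 : ((1 + N) * g).trace ^ 2 = 4 * ((1 + N) * g).det)
    (h2 : ((1 + 2 • N) * g).trace ^ 2 = 4 * ((1 + 2 • N) * g).det) : (N * g).trace = 0 := by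
  have hdet : ∀ m : ℕ, (1 + m • N).det = 1 := by
    intro m
    have ht : N.trace = 0 := by
      have hd : N.det = 0 := by
        have := congrArg Matrix.det hN
        rw [Matrix.det_mul, Matrix.det_zero] at this
        exact pow_eq_zero_iff (two_ne_zero) |>.1 (by rw [sq]; exact this)
      rw [Matrix.det_fin_two] at hd
      have e00 := congrFun (congrFun hN 0) 0
      have e11 := congrFun (congrFun hN 1) 1
      simp only [Matrix.mul_apply, Fin.sum_univ_two, Matrix.zero_apply] at e00 e11
      rw [Matrix.trace_fin_two]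
      have : (N 0 0 + N 1 1) ^ 2 = 0 := by linear_combination e00 + e11 + 2 * hd
      exact pow_eq_zero_iff (two_ne_zero) |>.1 this
    have hd : N.det = 0 := by
      have := congrArg Matrix.det hN
      rw [Matrix.det_mul, Matrix.det_zero] at this
      exact pow_eq_zero_iff (two_ne_zero) |>.1 (by rw [sq]; exact this)
    rw [Matrix.det_fin_two] at hd ⊢
    rw [Matrix.trace_fin_two] at ht
    simp only [Matrix.add_apply, Matrix.smul_apply, Matrix.one_apply_eq,
      Matrix.one_apply_ne (zero_ne_one (α := Fin 2)), Matrix.one_apply_ne (one_ne_zero (α := Fin 2))]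
    simp only [nsmul_eq_mul]
    linear_combination (m : K) * ht + (m : K) ^ 2 * hd
  set t := (N * g).trace with ht
  have e1 : ((1 + N) * g).trace = g.trace + t := by
    rw [add_mul, one_mul, Matrix.trace_add]
  have e2 : ((1 + 2 • N) * g).trace = g.trace + 2 * t := by
    rw [add_mul, one_mul, Matrix.trace_add, Matrix.smul_mul, Matrix.trace_smul, nsmul_eq_mul]
    push_cast; ring
  have d1 : (1 + N).det = 1 := by simpa using hdet 1
  have d2 := hdet 2
  rw [e1, Matrix.det_mul, d1, one_mul, ← h0] at h1
  rw [e2, Matrix.det_mul, d2, one_mul, ← h0] at h2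
  -- `t (2 τ + t) = 0` and `4 t (τ + t) = 0`
  have a1 : t * (2 * g.trace + t) = 0 := by linear_combination h1
  have a2 : 4 * t * (g.trace + t) = 0 := by linear_combination h2
  by_contra hne
  have b1 : 2 * g.trace + t = 0 := (mul_eq_zero.1 a1).resolve_left hne
  by_cases h4 : (2 : K) = 0
  · rw [h4, zero_mul, zero_add] at b1
    exact hne b1
  · have b2 : g.trace + t = 0 := by
      rcases mul_eq_zero.1 a2 with h | h
      · exfalso
        rcases mul_eq_zero.1 h with h' | h'
        · have : (4 : K) = 2 * 2 := by norm_num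
          rw [this] at h'
          exact h4 (mul_self_eq_zero.1 h')
        · exact hne h'
      · exact h
    apply hne
    linear_combination 2 * b2 - b1

/-- The kernel of a nonzero nilpotent matrix `N` is a line; if `tr (N g) = 0` then `g` maps it to
itself. -/
theorem eigVec_of_trace {N g : Matrix (Fin 2) (Fin 2) K} (hN : N * N = 0) (hN0 : N ≠ 0)
    (ht : (N * g).trace = 0) {x : Fin 2 → K} (hx : N.mulVec x = 0) (hx0 : x ≠ 0) : EigVec g x := by
  -- `N = u φ` with `u = c x`
  have hd : N.det = 0 := by
    have := congrArg Matrix.det hN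
    rw [Matrix.det_mul, Matrix.det_zero] at this
    exact pow_eq_zero_iff (two_ne_zero) |>.1 (by rw [sq]; exact this)
  have htr : N.trace = 0 := by
    have e00 := congrFun (congrFun hN 0) 0
    have e11 := congrFun (congrFun hN 1) 1
    simp only [Matrix.mul_apply, Fin.sum_univ_two, Matrix.zero_apply] at e00 e11
    rw [Matrix.det_fin_two] at hd
    rw [Matrix.trace_fin_two]
    have : (N 0 0 + N 1 1) ^ 2 = 0 := by linear_combination e00 + e11 + 2 * hd
    exact pow_eq_zero_iff (two_ne_zero) |>.1 this
  have hx1 := congrFun hx 0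
  have hx2 := congrFun hx 1
  simp only [Matrix.mulVec, dotProduct, Fin.sum_univ_two, Pi.zero_apply] at hx1 hx2
  rw [Matrix.det_fin_two] at hd
  rw [Matrix.trace_fin_two] at htr ht
  simp only [Matrix.mul_apply, Fin.sum_univ_two] at ht
  -- the vector `y = g x` satisfies `x_0 y_1 = x_1 y_0`
  have key : x 0 * (g.mulVec x) 1 = x 1 * (g.mulVec x) 0 := by
    simp only [Matrix.mulVec, dotProduct, Fin.sum_univ_two]
    by_contra hne
    apply hN0
    -- all entries of `N` times the number are zero
    have hs : (x 0 * (g 1 0 * x 0 + g 1 1 * x 1) - x 1 * (g 0 0 * x 0 + g 0 1 * x 1)) ≠ 0 :=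
      sub_ne_zero.2 hne
    have hn11 : N 1 1 = - N 0 0 := by linear_combination htr
    rw [hn11] at hx2 ht
    by_cases h0 : x 0 = 0
    · have h1 : x 1 ≠ 0 := by
        intro h1; apply hx0; funext i; fin_cases i
        · exact h0
        · exact h1
      rw [h0] at hx1 hx2 hs
      have n01 : N 0 1 = 0 := by
        have : N 0 1 * x 1 = 0 := by linear_combination hx1
        exact (mul_eq_zero.1 this).resolve_right h1
      have n00 : N 0 0 = 0 := by
        have : N 0 0 * x 1 = 0 := by linear_combination -hx2
        exact (mul_eq_zero.1 this).resolve_right h1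
      have g01 : g 0 1 ≠ 0 := by
        intro h; apply hs; rw [h]; ring
      rw [n01, n00] at ht
      have n10 : N 1 0 = 0 := by
        have : N 1 0 * g 0 1 = 0 := by linear_combination ht
        exact (mul_eq_zero.1 this).resolve_right g01
      ext i j
      fin_cases i <;> fin_cases j
      · exact n00
      · exact n01
      · exact n10
      · show N 1 1 = 0
        rw [hn11, n00, neg_zero]
    · -- `N 0 0 = - N 0 1 x_1 / x_0` and `N 1 0 = N 0 0 x_1 / x_0`
      have n01 : N 0 1 = 0 := by
        have e : N 0 1 * (x 0 * (g 1 0 * x 0 + g 1 1 * x 1) - x 1 * (g 0 0 * x 0 + g 0 1 * x 1)) = 0 := by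
          linear_combination (x 0) ^ 2 * ht - g 0 0 * x 0 * hx1 + g 1 1 * x 0 * hx1 -
            g 0 1 * x 0 * hx2 - g 0 1 * x 1 * hx1
        exact (mul_eq_zero.1 e).resolve_right hs
      have n00 : N 0 0 = 0 := by
        rw [n01] at hx1
        have : N 0 0 * x 0 = 0 := by linear_combination hx1
        exact (mul_eq_zero.1 this).resolve_right h0
      have n10 : N 1 0 = 0 := by
        rw [n00] at hx2
        have : N 1 0 * x 0 = 0 := by linear_combination hx2
        exact (mul_eq_zero.1 this).resolve_right h0
      ext i j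
      fin_cases i <;> fin_cases j
      · exact n00
      · exact n01
      · exact n10
      · show N 1 1 = 0
        rw [hn11, n00, neg_zero]
  by_cases h0 : x 0 = 0
  · have h1 : x 1 ≠ 0 := by
      intro h1; apply hx0; funext i; fin_cases i
      · exact h0
      · exact h1
    refine ⟨(g.mulVec x) 1 / x 1, ?_⟩
    funext i
    fin_cases i
    · show (g.mulVec x) 0 = (g.mulVec x) 1 / x 1 * x 0
      rw [h0] at key ⊢
      have : x 1 * (g.mulVec x) 0 = 0 := by linear_combination -key
      rw [(mul_eq_zero.1 this).resolve_left h1]; ring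
    · show (g.mulVec x) 1 = (g.mulVec x) 1 / x 1 * x 1
      field_simp
  · refine ⟨(g.mulVec x) 0 / x 0, ?_⟩
    funext i
    fin_cases i
    · show (g.mulVec x) 0 = (g.mulVec x) 0 / x 0 * x 0
      field_simp
    · show (g.mulVec x) 1 = (g.mulVec x) 0 / x 0 * x 1
      field_simp
      linear_combination key

end

end Pool.Agent.Run7.h261.CG
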